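import Pool.Agent.Helper5.FB.Main
import Pool.Agent.Helper80.VR.Affine

/-!
# FB: finite point sets whose projection is unimodular
-/

namespace Pool.Agent.Helper5.FB

open Finset Pool.Agent.Helper80.VR

/-- the sign of a Boolean -/
def sg (s : Bool) : ℝ := if s then 1 else -1

theorem abs_sg (s : Bool) : |sg s| = 1 := by
  unfold sg
  split_ifs <;> simp

private theorem abs_det_sign_h5 {n : ℕ} (A : Matrix (Fin n) (Fin n) ℝ) (v : Fin n → Bool) :
    |(Matrix.of fun i j => sg (v i) * A i j).det| = |A.det| := by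
  rw [Matrix.det_mul_column (fun i => sg (v i)) A, abs_mul, Finset.abs_prod]
  simp only [abs_sg, Finset.prod_const_one, one_mul]

/-- two points over the same base point -/
theorem gapF {ι : Type} {r : ℕ} (b : ι → Fin (r + 1) → ℝ) (u : ι → ℝ) (x y : ι)
    (hxy : b x = b y) (g : Fin r → ι) :
    Fd b u (Fin.cons x (Fin.cons y g)) = (u x - u y) * G b (Fin.cons y g) := by
  unfold Fd G
  set A : Matrix (Fin (r + 2)) (Fin (r + 2)) ℝ := Matrix.of fun k : Fin (r + 2) =>
    (Fin.cons (u ((Fin.cons x (Fin.cons y g) : Fin (r + 2) → ι) k))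
      (b ((Fin.cons x (Fin.cons y g) : Fin (r + 2) → ι) k)) : Fin (r + 2) → ℝ) with hA
  have h01 : (0 : Fin (r + 2)) ≠ 1 := by simp
  rw [← Matrix.det_updateRow_add_smul_self A h01 (-1)]
  have hA0 : A 0 = Fin.cons (u x) (b x) := by
    rw [hA]
    rfl
  have hA1 : A 1 = Fin.cons (u y) (b y) := by
    rw [hA]
    rfl
  have hrow : ∀ j : Fin (r + 1), (A 0 + (-1 : ℝ) • A 1) j.succ = 0 := by
    intro j
    rw [Pi.add_apply, Pi.smul_apply, hA0, hA1, Fin.cons_succ, Fin.cons_succ, hxy, smul_eq_mul]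
    ring
  have hrow0 : (A 0 + (-1 : ℝ) • A 1) 0 = u x - u y := by
    rw [Pi.add_apply, Pi.smul_apply, hA0, hA1, Fin.cons_zero, Fin.cons_zero, smul_eq_mul]
    ring
  rw [Matrix.det_succ_row_zero, Fin.sum_univ_succ, Matrix.updateRow_self]
  have h2 : ∑ j : Fin (r + 1), (-1 : ℝ) ^ ((j.succ : Fin (r + 2)) : ℕ)
      * (A 0 + (-1 : ℝ) • A 1) j.succ
      * ((A.updateRow 0 (A 0 + (-1 : ℝ) • A 1)).submatrix Fin.succ (j.succ.succAbove)).det = 0 := by
    apply Finset.sum_eq_zero
    intro j _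
    rw [hrow j]
    ring
  rw [h2, hrow0]
  simp only [Fin.val_zero, pow_zero, one_mul, add_zero]
  congr 2

/-- a finite set of reals with gaps at least `δ` -/
theorem gaps {α : Type} [DecidableEq α] (A : Finset α) (f : α → ℝ) (δ : ℝ) (hδ : 0 < δ)
    (hA : ∀ x ∈ A, ∀ y ∈ A, x ≠ y → δ ≤ |f x - f y|) (lo hi : α)
    (hlo : ∀ x ∈ A, f lo ≤ f x) (hhi : ∀ x ∈ A, f x ≤ f hi) (hle : f lo ≤ f hi) :
    ((#A : ℝ) - 1) * δ ≤ f hi - f lo := by
  classical
  have hinj : Set.InjOn (fun x => ⌊(f x - f lo) / δ⌋) (A : Set α) := by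
    intro x hx y hy hxy
    by_contra hne
    have h1 := hA x hx y hy hne
    have h2 : |(f x - f lo) / δ - (f y - f lo) / δ| < 1 := Int.abs_sub_lt_one_of_floor_eq_floor hxy
    have h3 : (f x - f lo) / δ - (f y - f lo) / δ = (f x - f y) / δ := by
      field_simp
      ring
    rw [h3, abs_div, abs_of_pos hδ, div_lt_one hδ] at h2
    linarith
  have hsub : A.image (fun x => ⌊(f x - f lo) / δ⌋) ⊆ Finset.Icc 0 ⌊(f hi - f lo) / δ⌋ := by
    intro z hz
    rw [Finset.mem_image] at hz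
    obtain ⟨x, hx, rfl⟩ := hz
    rw [Finset.mem_Icc]
    constructor
    · apply Int.floor_nonneg.2
      exact div_nonneg (sub_nonneg.2 (hlo x hx)) hδ.le
    · apply Int.floor_le_floor
      have := hhi x hx
      gcongr
  have h1 := Finset.card_le_card hsub
  rw [Finset.card_image_of_injOn hinj, Int.card_Icc] at h1
  have h0 : 0 ≤ ⌊(f hi - f lo) / δ⌋ := Int.floor_nonneg.2 (div_nonneg (sub_nonneg.2 hle) hδ.le)
  have h2 : (#A : ℝ) ≤ ⌊(f hi - f lo) / δ⌋ + 1 := by
    have h3 : (#A : ℤ) ≤ ⌊(f hi - f lo) / δ⌋ + 1 := by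
      have h4 : ((⌊(f hi - f lo) / δ⌋ + 1 - 0).toNat : ℤ) = ⌊(f hi - f lo) / δ⌋ + 1 := by
        rw [Int.toNat_of_nonneg (by omega)]
        ring
      have h5 : (#A : ℤ) ≤ ((⌊(f hi - f lo) / δ⌋ + 1 - 0).toNat : ℤ) := by exact_mod_cast h1
      omega
    exact_mod_cast h3
  have h3 := Int.floor_le ((f hi - f lo) / δ)
  have h4 : (#A : ℝ) - 1 ≤ (f hi - f lo) / δ := by linarith
  rwa [le_div_iff₀ hδ] at h4

/-- the base vector of a point, with a sign -/
noncomputable def bb {m : ℕ} (S : Finset (Fin (m + 1) → ℝ))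
    (π : (Fin (m + 1) → ℝ) →ₗ[ℝ] (Fin m → ℝ)) :
    {x // x ∈ S} × Bool → Fin (m + 1) → ℝ :=
  fun i => sg i.2 • (Fin.cons 1 (π i.1) : Fin (m + 1) → ℝ)

/-- the height of a point, with a sign -/
noncomputable def uu {m : ℕ} (S : Finset (Fin (m + 1) → ℝ)) (φ : (Fin (m + 1) → ℝ) →ₗ[ℝ] ℝ) :
    {x // x ∈ S} × Bool → ℝ :=
  fun i => sg i.2 * φ i.1

theorem abs_G_bb {m : ℕ} (S : Finset (Fin (m + 1) → ℝ))
    (π : (Fin (m + 1) → ℝ) →ₗ[ℝ] (Fin m → ℝ)) (f : Fin (m + 1) → {x // x ∈ S} × Bool) :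
    |G (bb S π) f| = |(Matrix.of fun k => (Fin.cons 1 (π (f k).1) : Fin (m + 1) → ℝ)).det| := by
  rw [← abs_det_sign_h5 _ (fun k => (f k).2)]
  rfl

theorem abs_Fd_bb {m : ℕ} (S : Finset (Fin (m + 1) → ℝ))
    (π : (Fin (m + 1) → ℝ) →ₗ[ℝ] (Fin m → ℝ)) (φ : (Fin (m + 1) → ℝ) →ₗ[ℝ] ℝ)
    (f : Fin (m + 2) → {x // x ∈ S} × Bool) :
    |Fd (bb S π) (uu S φ) f| = |(Matrix.of fun k => (Fin.cons (φ (f k).1)
      (Fin.cons 1 (π (f k).1) : Fin (m + 1) → ℝ) : Fin (m + 2) → ℝ)).det| := by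
  rw [← abs_det_sign_h5 _ (fun k => (f k).2)]
  unfold Fd
  congr 2
  ext i j
  rw [Matrix.of_apply, Matrix.of_apply, Matrix.of_apply]
  refine Fin.cases ?_ (fun j => ?_) j
  · rw [Fin.cons_zero, Fin.cons_zero]
    rfl
  · rw [Fin.cons_succ, Fin.cons_succ]
    rfl

/-- a height function for a projection with one dimensional kernel -/
theorem exists_height {m : ℕ} (π : (Fin (m + 1) → ℝ) →ₗ[ℝ] (Fin m → ℝ))
    (hπ : Function.Surjective π) :
    ∃ φ : (Fin (m + 1) → ℝ) →ₗ[ℝ] ℝ, ∀ x, π x = 0 → φ x = 0 → x = 0 := by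
  have h1 := LinearMap.finrank_range_add_finrank_ker π
  rw [LinearMap.range_eq_top.2 hπ, finrank_top, Module.finrank_fin_fun, Module.finrank_fin_fun]
    at h1
  have h2 : Module.finrank ℝ (LinearMap.ker π) = 1 := by omega
  obtain ⟨v, hv, hv2⟩ := finrank_eq_one_iff'.1 h2
  have hv0 : (v : Fin (m + 1) → ℝ) ≠ 0 := fun h => hv (Subtype.ext h)
  obtain ⟨φ, hφ⟩ := SeparatingDual.exists_eq_one (R := ℝ) hv0
  refine ⟨φ.toLinearMap, fun x hx hx2 => ?_⟩
  obtain ⟨c, hc⟩ := hv2 ⟨x, hx⟩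
  have hc' : c • (v : Fin (m + 1) → ℝ) = x := congrArg Subtype.val hc
  have h3 : φ x = c := by
    rw [← hc', map_smul, hφ, smul_eq_mul, mul_one]
  have h4 : φ x = 0 := hx2
  rw [← hc', ← h3, h4, zero_smul]

/-- the full determinants are proportional to the determinants of the points -/
theorem exists_scale {m : ℕ} (π : (Fin (m + 1) → ℝ) →ₗ[ℝ] (Fin m → ℝ))
    (φ : (Fin (m + 1) → ℝ) →ₗ[ℝ] ℝ) (hφ : ∀ x, π x = 0 → φ x = 0 → x = 0) :
    ∃ c : ℝ, c ≠ 0 ∧ ∀ x : Fin (m + 2) → (Fin (m + 1) → ℝ),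
      (Matrix.of fun k => (Fin.cons (φ (x k)) (Fin.cons 1 (π (x k)) : Fin (m + 1) → ℝ) :
        Fin (m + 2) → ℝ)).det
      = (Matrix.of fun k => (Fin.cons 1 (x k) : Fin (m + 2) → ℝ)).det * c := by
  let Φ : (Fin (m + 2) → ℝ) →ₗ[ℝ] (Fin (m + 2) → ℝ) :=
    { toFun := fun y => Fin.cons (φ (Fin.tail y)) (Fin.cons (y 0) (π (Fin.tail y)) :
        Fin (m + 1) → ℝ)
      map_add' := by
        intro x y
        have ht : (Fin.tail (x + y) : Fin (m + 1) → ℝ) = Fin.tail x + Fin.tail y := rfl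
        funext k
        refine Fin.cases ?_ (fun k => ?_) k
        · simp only [Fin.cons_zero, Pi.add_apply, ht, map_add]
        · refine Fin.cases ?_ (fun k => ?_) k
          · simp only [Fin.cons_succ, Fin.cons_zero, Pi.add_apply]
          · simp only [Fin.cons_succ, Pi.add_apply, ht, map_add]
      map_smul' := by
        intro a x
        have ht : (Fin.tail (a • x) : Fin (m + 1) → ℝ) = a • Fin.tail x := rfl
        funext k
        refine Fin.cases ?_ (fun k => ?_) k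
        · simp only [Fin.cons_zero, Pi.smul_apply, ht, map_smul, RingHom.id_apply]
        · refine Fin.cases ?_ (fun k => ?_) k
          · simp only [Fin.cons_succ, Fin.cons_zero, Pi.smul_apply, RingHom.id_apply]
          · simp only [Fin.cons_succ, Pi.smul_apply, ht, map_smul, RingHom.id_apply] }
  have hΦ : ∀ y, Φ y = Fin.cons (φ (Fin.tail y)) (Fin.cons (y 0) (π (Fin.tail y)) :
        Fin (m + 1) → ℝ) := fun y => rfl
  have hinj : Function.Injective Φ := by
    rw [← LinearMap.ker_eq_bot, LinearMap.ker_eq_bot']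
    intro y hy
    rw [hΦ] at hy
    have h1 : φ (Fin.tail y) = 0 := by
      have := congrFun hy 0
      rwa [Fin.cons_zero] at this
    have h2 : y 0 = 0 := by
      have := congrFun hy (Fin.succ 0)
      rwa [Fin.cons_succ, Fin.cons_zero] at this
    have h3 : π (Fin.tail y) = 0 := by
      funext k
      have := congrFun hy k.succ.succ
      rwa [Fin.cons_succ, Fin.cons_succ] at this
    have h4 := hφ _ h3 h1
    funext k
    refine Fin.cases ?_ (fun k => ?_) k
    · exact h2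
    · exact congrFun h4 k
  refine ⟨LinearMap.det Φ, ?_, fun x => ?_⟩
  · have h1 := (LinearEquiv.isUnit_det' (LinearEquiv.ofInjectiveEndo Φ hinj)).ne_zero
    have e : ((LinearEquiv.ofInjectiveEndo Φ hinj : (Fin (m + 2) → ℝ) ≃ₗ[ℝ] (Fin (m + 2) → ℝ)) :
        (Fin (m + 2) → ℝ) →ₗ[ℝ] (Fin (m + 2) → ℝ)) = Φ := by
      ext x
      rfl
    rwa [e] at h1
  · have h1 : (Matrix.of fun k => (Fin.cons (φ (x k)) (Fin.cons 1 (π (x k)) : Fin (m + 1) → ℝ) :
        Fin (m + 2) → ℝ))
        = (Matrix.of fun k => (Fin.cons 1 (x k) : Fin (m + 2) → ℝ))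
          * (LinearMap.toMatrix' Φ).transpose := by
      ext k j
      have h2 : ((Matrix.of fun k => (Fin.cons 1 (x k) : Fin (m + 2) → ℝ))
          * (LinearMap.toMatrix' Φ).transpose) k j
          = (LinearMap.toMatrix' Φ).mulVec (Fin.cons 1 (x k)) j := by
        simp only [Matrix.mul_apply, Matrix.transpose_apply, Matrix.mulVec, dotProduct,
          Matrix.of_apply]
        exact Finset.sum_congr rfl fun k _ => mul_comm _ _
      rw [h2, LinearMap.toMatrix'_mulVec, hΦ, Matrix.of_apply, Fin.tail_cons, Fin.cons_zero]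
    rw [h1, Matrix.det_mul, Matrix.det_transpose, LinearMap.det_toMatrix']

theorem main_sets {m : ℕ} (S : Finset (Fin (m + 1) → ℝ))
    (hS : affineSpan ℝ (S : Set (Fin (m + 1) → ℝ)) = ⊤)
    (π : (Fin (m + 1) → ℝ) →ₗ[ℝ] (Fin m → ℝ)) (hπ : Function.Surjective π)
    (huni : Helper5.SV.largest (π '' (S : Set (Fin (m + 1) → ℝ)))
      = Helper5.SV.smallest (π '' (S : Set (Fin (m + 1) → ℝ)))) :
    ((#S : ℝ) - (π '' (S : Set (Fin (m + 1) → ℝ))).ncard) / (m + 1)
      ≤ Helper5.SV.largest (S : Set (Fin (m + 1) → ℝ))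
        / Helper5.SV.smallest (S : Set (Fin (m + 1) → ℝ)) := by
  classical
  set D : ℝ := Helper5.SV.largest (S : Set (Fin (m + 1) → ℝ))
        / Helper5.SV.smallest (S : Set (Fin (m + 1) → ℝ)) with hDdef
  set T : Finset (Fin m → ℝ) := S.image π with hT
  have hTc : (T : Set (Fin m → ℝ)) = π '' (S : Set (Fin (m + 1) → ℝ)) := by
    rw [hT, Finset.coe_image]
  rw [← hTc] at huni ⊢
  rw [Set.ncard_coe_finset]
  have hTspan : affineSpan ℝ (T : Set (Fin m → ℝ)) = ⊤ := by
    have h1 := AffineSubspace.map_span (k := ℝ) (f := π.toAffineMap) (S : Set (Fin (m + 1) → ℝ))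
    rw [hS] at h1
    rw [hTc]
    have h2 : (⇑π.toAffineMap '' (S : Set (Fin (m + 1) → ℝ))) = π '' (S : Set (Fin (m + 1) → ℝ)) :=
      rfl
    rw [h2] at h1
    rw [← h1, AffineMap.map_top_of_surjective]
    exact hπ
  -- the unimodular base
  have hratioT : Ratio (lift T) 1 := by
    have h1 := ratio_lift T hTspan
    rw [huni] at h1
    intro f g hg
    refine (h1 f g hg).trans ?_
    have h2 : Helper5.SV.smallest (T : Set (Fin m → ℝ)) / Helper5.SV.smallest (T : Set (Fin m → ℝ))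
        ≤ 1 := div_self_le_one _
    exact mul_le_mul_of_nonneg_right h2 (abs_nonneg _)
  obtain ⟨φ, hφ⟩ := exists_height π hπ
  obtain ⟨c, hc, hscale⟩ := exists_scale π φ hφ
  have hratioS : Ratio (lift S) D := ratio_lift S hS
  -- the elements
  have hmemT : ∀ x : {x // x ∈ S}, π x ∈ T := fun x => Finset.mem_image_of_mem _ x.2
  have hGb : ∀ f : Fin (m + 1) → {x // x ∈ S} × Bool, |G (bb S π) f|
      = |G (lift T) (fun k => ⟨π (f k).1, hmemT (f k).1⟩)| := fun f => abs_G_bb S π f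
  have hFb : ∀ f : Fin (m + 2) → {x // x ∈ S} × Bool, |Fd (bb S π) (uu S φ) f|
      = |G (lift S) (fun k => (f k).1)| * |c| := by
    intro f
    rw [abs_Fd_bb, hscale, abs_mul]
    rfl
  -- the smallest nonzero full determinant
  obtain ⟨f0, hf0⟩ := exists_G_ne (lift S) (span_lift S hS)
  obtain ⟨f1, hf1, hmin⟩ := Finset.exists_min_image
    ((Finset.univ : Finset (Fin (m + 2) → {x // x ∈ S})).filter fun f => G (lift S) f ≠ 0)
    (fun f => |G (lift S) f|) ⟨f0, by rw [Finset.mem_filter]; exact ⟨Finset.mem_univ _, hf0⟩⟩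
  rw [Finset.mem_filter] at hf1
  set τ : ℝ := |G (lift S) f1| with hτ
  have hτ0 : 0 < τ := abs_pos.2 hf1.2
  have hτmin : ∀ f, G (lift S) f ≠ 0 → τ ≤ |G (lift S) f| := fun f hf =>
    hmin f (by rw [Finset.mem_filter]; exact ⟨Finset.mem_univ _, hf⟩)
  have hmax : ∀ f, |G (lift S) f| ≤ D * τ := fun f => hratioS f f1 hf1.2
  -- the base determinant
  obtain ⟨g0, hg0⟩ := exists_G_ne (lift T) (span_lift T hTspan)
  set θ : ℝ := |G (lift T) g0| with hθ
  have hθ0 : 0 < θ := abs_pos.2 hg0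
  have hθeq : ∀ g, G (lift T) g ≠ 0 → |G (lift T) g| = θ := by
    intro g hg
    have h1 := hratioT g g0 hg0
    have h2 := hratioT g0 g hg
    rw [one_mul] at h1 h2
    exact le_antisymm h1 h2
  have hc0 : 0 < |c| := abs_pos.2 hc
  have hgood : Good (bb S π) (uu S φ) (|c| * (D * τ) / θ) := by
    refine ⟨?_, ?_, ?_, ?_⟩
    · rw [eq_top_iff, ← span_lift T hTspan, Submodule.span_le]
      rintro _ ⟨t, rfl⟩
      obtain ⟨x, hx, hxt⟩ := Finset.mem_image.1 t.2
      apply Submodule.subset_span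
      refine ⟨(⟨x, hx⟩, true), ?_⟩
      show sg true • (Fin.cons 1 (π x) : Fin (m + 1) → ℝ) = Fin.cons 1 (t : Fin m → ℝ)
      rw [hxt]
      simp [sg]
    · intro f g hg
      have hg' : G (lift T) (fun k => ⟨π (g k).1, hmemT (g k).1⟩) ≠ 0 := by
        intro h
        apply hg
        rw [← abs_eq_zero, hGb, h, abs_zero]
      rw [hGb, hGb]
      exact hratioT _ _ hg'
    · intro f g hg
      have hg' : G (lift T) (fun k => ⟨π (g k).1, hmemT (g k).1⟩) ≠ 0 := by
        intro h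
        apply hg
        rw [← abs_eq_zero, hGb, h, abs_zero]
      rw [hGb g, hθeq _ hg', hFb f, div_mul_cancel₀ _ hθ0.ne', mul_comm]
      exact mul_le_mul_of_nonneg_left (hmax _) hc0.le
    · intro i
      refine ⟨(i.1, !i.2), ?_, ?_⟩
      · unfold bb
        rcases i with ⟨x, s⟩
        cases s <;> simp [sg]
      · unfold uu
        rcases i with ⟨x, s⟩
        cases s <;> simp [sg]
  -- the gaps
  set δ : ℝ := |c| * τ / θ with hδ
  have hδ0 : 0 < δ := by positivity
  have hgap : ∀ x y : {x // x ∈ S}, π x = π y → x ≠ y → δ ≤ |φ x - φ y| := by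
    intro x y hxy hne
    have hby : bb S π (y, true) ≠ 0 := by
      intro h
      have h1 := congrFun h 0
      simp [bb, sg] at h1
    obtain ⟨T', ψ, c0, hTs, hTk, hψ, hc0', hGb', hgood'⟩ := contr hgood (y, true) hby
    obtain ⟨g, hg⟩ := exists_G_ne (fun j => T' (bb S π j)) (hgood' (y, true) rfl).sp
    rw [hGb'] at hg
    have hg1 := left_ne_zero_of_mul hg
    have hg' : G (lift T) (fun k => ⟨π ((Fin.cons (y, true) g : Fin (m + 1) → _) k).1,
        hmemT ((Fin.cons (y, true) g : Fin (m + 1) → {x // x ∈ S} × Bool) k).1⟩) ≠ 0 := by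
      intro h
      apply hg1
      rw [← abs_eq_zero, hGb, h, abs_zero]
    have hbxy : bb S π (x, true) = bb S π (y, true) := by
      unfold bb
      rw [hxy]
    have h1 := gapF (bb S π) (uu S φ) (x, true) (y, true) hbxy g
    have hu : uu S φ (x, true) - uu S φ (y, true) = φ x - φ y := by
      simp [uu, sg]
    rw [hu] at h1
    have hne' : φ x - φ y ≠ 0 := by
      intro h
      apply hne
      apply Subtype.ext
      have h2 := hφ ((x : Fin (m + 1) → ℝ) - y) (by rw [map_sub, hxy, sub_self])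
        (by rw [map_sub]; exact h)
      exact sub_eq_zero.1 h2
    have h2 : |Fd (bb S π) (uu S φ) (Fin.cons (x, true) (Fin.cons (y, true) g))|
        = |φ x - φ y| * θ := by
      rw [h1, abs_mul, hGb, hθeq _ hg']
    rw [hFb] at h2
    have h3 : G (lift S) (fun k => ((Fin.cons (x, true) (Fin.cons (y, true) g) :
        Fin (m + 2) → {x // x ∈ S} × Bool) k).1) ≠ 0 := by
      intro h
      rw [h, abs_zero, zero_mul] at h2
      have : 0 < |φ x - φ y| * θ := mul_pos (abs_pos.2 hne') hθ0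
      linarith
    have h4 := hτmin _ h3
    rw [hδ, div_le_iff₀ hθ0, ← h2, mul_comm]
    exact mul_le_mul_of_nonneg_right h4 hc0.le
  -- lowest and highest points of the fibres
  have hfib : ∀ t : {t // t ∈ T}, ∃ lo hi : {x // x ∈ S}, π lo = t ∧ π hi = t ∧
      φ lo ≤ φ hi ∧ ((#(S.filter fun x => π x = t) : ℝ) - 1) * δ ≤ φ hi - φ lo := by
    intro t
    have hne : (S.attach.filter fun x : {x // x ∈ S} => π (x : Fin (m + 1) → ℝ) = t).Nonempty := by
      obtain ⟨x, hx, hxt⟩ := Finset.mem_image.1 t.2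
      exact ⟨⟨x, hx⟩, by rw [Finset.mem_filter]; exact ⟨Finset.mem_attach _ _, hxt⟩⟩
    obtain ⟨lo, hlo, hlo2⟩ := Finset.exists_min_image _ (fun x : {x // x ∈ S} => φ x) hne
    obtain ⟨hi, hhi, hhi2⟩ := Finset.exists_max_image _ (fun x : {x // x ∈ S} => φ x) hne
    refine ⟨lo, hi, (Finset.mem_filter.1 hlo).2, (Finset.mem_filter.1 hhi).2, hhi2 lo hlo, ?_⟩
    have h1 := gaps (S.attach.filter fun x : {x // x ∈ S} => π (x : Fin (m + 1) → ℝ) = t) (fun x : {x // x ∈ S} => φ x) δ hδ0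
      (fun x hx y hy hxy => hgap x y (((Finset.mem_filter.1 hx).2).trans
        ((Finset.mem_filter.1 hy).2).symm) hxy) lo hi hlo2 hhi2 (hhi2 lo hlo)
    have h2 : #(S.attach.filter fun x : {x // x ∈ S} => π (x : Fin (m + 1) → ℝ) = t) = #(S.filter fun x => π x = t) := by
      have h3 : (S.attach.filter fun x : {x // x ∈ S} => π (x : Fin (m + 1) → ℝ) = t).map ⟨Subtype.val, Subtype.val_injective⟩
          = S.filter fun x => π x = t := by
        ext x
        simp only [Finset.mem_map, Finset.mem_filter, Finset.mem_attach, true_and,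
          Function.Embedding.coeFn_mk, Subtype.exists, exists_and_left, exists_prop,
          exists_eq_right_right]
        tauto
      rw [← h3, Finset.card_map]
    rw [h2] at h1
    exact h1
  choose lo hi hlo1 hhi1 hle hlen using hfib
  have hres := stmtF_all ({x // x ∈ S} × Bool) (|c| * (D * τ) / θ) (m + 1) (bb S π) (uu S φ) hgood
    {t // t ∈ T} (fun t => (lo t, true)) (fun t => (hi t, true))
    (fun t => by
      unfold bb
      rw [hlo1, hhi1])
    (fun t => by
      simp only [uu, sg]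
      simpa using hle t)
    (fun t h => by
      have h1 := congrFun h 0
      simp [bb, sg] at h1)
    (fun s t hst => by
      have h1 := pair_lift T s t hst
      have e : ∀ t : {t // t ∈ T}, bb S π (lo t, true) = lift T t := by
        intro t
        simp only [bb, sg, hlo1, lift]
        simp
      rw [e s, e t]
      exact h1)
  have hD0 : 0 ≤ |c| * (D * τ) / θ := D_nonneg hgood ((f0 0), true)
  have hfr : (Module.finrank ℝ (Submodule.span ℝ
      (Set.range fun t : {t // t ∈ T} => bb S π (lo t, true))) : ℝ) ≤ (m : ℝ) + 1 := by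
    have h1 := Submodule.finrank_le (Submodule.span ℝ
      (Set.range fun t : {t // t ∈ T} => bb S π (lo t, true)))
    rw [Module.finrank_fin_fun] at h1
    exact_mod_cast h1
  have h1 : ∑ t : {t // t ∈ T}, (((#(S.filter fun x => π x = t) : ℝ) - 1) * δ)
      ≤ ((m : ℝ) + 1) * (|c| * (D * τ) / θ) := by
    refine le_trans (Finset.sum_le_sum fun t _ => ?_)
      (hres.trans (mul_le_mul_of_nonneg_right hfr hD0))
    have h2 := hlen t
    simp only [uu, sg]
    simpa using h2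
  have h2 : ∑ t : {t // t ∈ T}, (((#(S.filter fun x => π x = t) : ℝ) - 1) * δ)
      = ((#S : ℝ) - #T) * δ := by
    rw [← Finset.sum_mul, Finset.sum_sub_distrib]
    congr 2
    · rw [Finset.sum_coe_sort T fun t => (#(S.filter fun x => π x = t) : ℝ)]
      rw [Finset.card_eq_sum_card_image π S]
      push_cast
      rfl
    · simp
  rw [h2] at h1
  have h3 : ((m : ℝ) + 1) * (|c| * (D * τ) / θ) = (((m : ℝ) + 1) * D) * δ := by
    rw [hδ]
    ring
  rw [h3] at h1
  have h4 : (#S : ℝ) - #T ≤ ((m : ℝ) + 1) * D := le_of_mul_le_mul_right h1 hδ0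
  rw [div_le_iff₀ (by positivity)]
  linarith

end Pool.Agent.Helper5.FB
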