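import Pool.Agent.Helper5.FB.Weighted

/-!
# FB: families of points with heights over a unimodular base, and contraction

`b i` is the base vector and `u i` the height of the point `i`.
-/

namespace Pool.Agent.Helper5.FB

open Finset Pool.Agent.Helper80.VR

/-- The determinant of the matrix with rows `(u, b)`. -/
noncomputable def Fd {ι : Type} {r : ℕ} (b : ι → Fin r → ℝ) (u : ι → ℝ)
    (f : Fin (r + 1) → ι) : ℝ :=
  Matrix.det (Matrix.of fun k : Fin (r + 1) => (Fin.cons (u (f k)) (b (f k)) : Fin (r + 1) → ℝ))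

/-- The base is spanning and unimodular, the full determinants are bounded by `D` times the base
determinants, and the family is closed under negation. -/
structure Good {ι : Type} {r : ℕ} (b : ι → Fin r → ℝ) (u : ι → ℝ) (D : ℝ) : Prop where
  sp : Submodule.span ℝ (Set.range b) = ⊤
  uni : Ratio b 1
  bd : ∀ (f : Fin (r + 1) → ι) (g : Fin r → ι), G b g ≠ 0 → |Fd b u f| ≤ D * |G b g|
  ng : ∀ i, ∃ j, b j = -b i ∧ u j = -u i

private theorem det_row_h5 {n : ℕ} (A : Matrix (Fin (n + 1)) (Fin (n + 1)) ℝ) (j0 : Fin (n + 1))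
    (h : A 0 = Pi.single j0 1) :
    |A.det| = |(A.submatrix Fin.succ j0.succAbove).det| := by
  rw [Matrix.det_succ_row_zero, Finset.sum_eq_single j0]
  · rw [h, Pi.single_eq_same, mul_one, abs_mul, abs_pow, abs_neg, abs_one, one_pow, one_mul]
  · intro j _ hj
    rw [h, Pi.single_eq_of_ne hj, mul_zero, zero_mul]
  · intro h
    exact absurd (Finset.mem_univ _) h

private theorem det_col_h5 {n : ℕ} (A : Matrix (Fin (n + 1)) (Fin (n + 1)) ℝ)
    (h0 : A 0 0 = 1) (h : ∀ i : Fin n, A i.succ 0 = 0) :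
    A.det = (A.submatrix Fin.succ Fin.succ).det := by
  rw [Matrix.det_succ_column_zero, Fin.sum_univ_succ]
  have h2 : ∑ i : Fin n, (-1 : ℝ) ^ ((i.succ : Fin (n + 1)) : ℕ) * A i.succ 0
      * (A.submatrix (i.succ.succAbove) Fin.succ).det = 0 := by
    apply Finset.sum_eq_zero
    intro j _
    rw [h j]
    ring
  rw [h2, h0]
  simp only [Fin.val_zero, pow_zero, one_mul, add_zero]
  congr 1

theorem contr {ι : Type} {r : ℕ} {b : ι → Fin (r + 1) → ℝ} {u : ι → ℝ} {D : ℝ}
    (hG : Good b u D) (i0 : ι) (h0 : b i0 ≠ 0) :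
    ∃ (T : (Fin (r + 1) → ℝ) →ₗ[ℝ] (Fin r → ℝ)) (ψ : (Fin (r + 1) → ℝ) →ₗ[ℝ] ℝ) (c : ℝ),
      Function.Surjective T ∧ LinearMap.ker T = Submodule.span ℝ {b i0} ∧ ψ (b i0) = 1 ∧
      c ≠ 0 ∧ (∀ f : Fin r → ι, G (fun j => T (b j)) f = G b (Fin.cons i0 f) * c) ∧
      ∀ i1, b i1 = b i0 → Good (fun j => T (b j)) (fun j => u j - u i1 * ψ (b j)) D := by
  classical
  have hs : (Pi.single 0 1 : Fin (r + 1) → ℝ) ≠ 0 := by
    intro h
    have := congrFun h 0
    rw [Pi.single_eq_same] at this
    exact one_ne_zero this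
  obtain ⟨A, hA⟩ := SeparatingDual.exists_continuousLinearEquiv_apply_eq (R := ℝ) h0 hs
  let e : (Fin (r + 1) → ℝ) ≃ₗ[ℝ] (Fin (r + 1) → ℝ) := A.toLinearEquiv
  have he : e (b i0) = Pi.single 0 1 := hA
  let T : (Fin (r + 1) → ℝ) →ₗ[ℝ] (Fin r → ℝ) := (LinearMap.funLeft ℝ ℝ Fin.succ).comp
    (e : (Fin (r + 1) → ℝ) →ₗ[ℝ] (Fin (r + 1) → ℝ))
  have hT : ∀ x k, T x k = e x (Fin.succ k) := fun x k => rfl
  let ψ : (Fin (r + 1) → ℝ) →ₗ[ℝ] ℝ := (LinearMap.proj 0).comp
    (e : (Fin (r + 1) → ℝ) →ₗ[ℝ] (Fin (r + 1) → ℝ))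
  have hψ : ∀ x, ψ x = e x 0 := fun x => rfl
  set E : Matrix (Fin (r + 1)) (Fin (r + 1)) ℝ :=
    LinearMap.toMatrix' (e : (Fin (r + 1) → ℝ) →ₗ[ℝ] (Fin (r + 1) → ℝ)) with hE
  have hEmul : ∀ x, E.mulVec x = e x := by
    intro x
    rw [hE, LinearMap.toMatrix'_mulVec]
    rfl
  have hEdet : E.det ≠ 0 := by
    rw [hE, LinearMap.det_toMatrix']
    exact (LinearEquiv.isUnit_det' e).ne_zero
  have hTs : Function.Surjective T := by
    intro y
    refine ⟨e.symm (Fin.cons 0 y), ?_⟩
    funext k
    rw [hT, LinearEquiv.apply_symm_apply, Fin.cons_succ]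
  have hTk : LinearMap.ker T = Submodule.span ℝ {b i0} := by
    ext x
    rw [LinearMap.mem_ker, Submodule.mem_span_singleton]
    constructor
    · intro hx
      refine ⟨e x 0, ?_⟩
      apply e.injective
      rw [map_smul, he]
      funext k
      refine Fin.cases ?_ (fun k => ?_) k
      · simp
      · have h1 : e x (Fin.succ k) = 0 := by
          rw [← hT, hx]
          rfl
        rw [h1]
        simp
    · rintro ⟨a, rfl⟩
      funext k
      rw [hT, map_smul, he]
      simp
  -- base determinants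
  have hGb : ∀ f : Fin r → ι, G (fun j => T (b j)) f = G b (Fin.cons i0 f) * E.det := by
    intro f
    unfold G
    have h1 : ((Matrix.of fun k : Fin (r + 1) => b ((Fin.cons i0 f : Fin (r + 1) → ι) k))
        * E.transpose).det
        = (Matrix.of fun k : Fin r => T (b (f k))).det := by
      rw [← Matrix.det_transpose, det_col_h5]
      · rw [← Matrix.det_transpose]
        congr 1
        ext i j
        simp only [Matrix.of_apply, hT, Matrix.mul_apply, Matrix.transpose_apply, Fin.cons_succ,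
          Matrix.submatrix_apply]
        rw [← hEmul]
        simp only [Matrix.mulVec, dotProduct]
        exact Finset.sum_congr rfl fun k _ => mul_comm _ _
      · have h2 : ∀ k, ((Matrix.of fun k : Fin (r + 1) => b ((Fin.cons i0 f : Fin (r + 1) → ι) k))
            * E.transpose) 0 k = e (b i0) k := by
          intro k
          rw [← hEmul]
          simp only [Matrix.of_apply, Matrix.mul_apply, Matrix.transpose_apply, Fin.cons_zero,
            Matrix.mulVec, dotProduct]
          exact Finset.sum_congr rfl fun k _ => mul_comm _ _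
        rw [Matrix.transpose_apply, h2, he, Pi.single_eq_same]
      · intro i
        have h2 : ∀ k, ((Matrix.of fun k : Fin (r + 1) => b ((Fin.cons i0 f : Fin (r + 1) → ι) k))
            * E.transpose) 0 k = e (b i0) k := by
          intro k
          rw [← hEmul]
          simp only [Matrix.of_apply, Matrix.mul_apply, Matrix.transpose_apply, Fin.cons_zero,
            Matrix.mulVec, dotProduct]
          exact Finset.sum_congr rfl fun k _ => mul_comm _ _
        rw [Matrix.transpose_apply, h2, he, Pi.single_eq_of_ne (Fin.succ_ne_zero i)]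
    rw [← h1, Matrix.det_mul, Matrix.det_transpose]
  refine ⟨T, ψ, E.det, hTs, hTk, ?_, hEdet, hGb, ?_⟩
  · rw [hψ, he, Pi.single_eq_same]
  intro i1 hi1
  -- full determinants
  let Φ : (Fin (r + 2) → ℝ) →ₗ[ℝ] (Fin (r + 2) → ℝ) :=
    { toFun := fun x => Fin.cons (x 0 - u i1 * e (Fin.tail x) 0) (e (Fin.tail x))
      map_add' := by
        intro x y
        have ht : (Fin.tail (x + y) : Fin (r + 1) → ℝ) = Fin.tail x + Fin.tail y := rfl
        funext k
        refine Fin.cases ?_ (fun k => ?_) k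
        · simp only [Fin.cons_zero, Pi.add_apply, ht, map_add]
          ring
        · simp only [Fin.cons_succ, Pi.add_apply, ht, map_add]
      map_smul' := by
        intro a x
        have ht : (Fin.tail (a • x) : Fin (r + 1) → ℝ) = a • Fin.tail x := rfl
        funext k
        refine Fin.cases ?_ (fun k => ?_) k
        · simp only [Fin.cons_zero, Pi.smul_apply, ht, map_smul, RingHom.id_apply, smul_eq_mul]
          ring
        · simp only [Fin.cons_succ, Pi.smul_apply, ht, map_smul, RingHom.id_apply, smul_eq_mul] }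
  have hΦ : ∀ x, Φ x = Fin.cons (x 0 - u i1 * e (Fin.tail x) 0) (e (Fin.tail x)) := fun x => rfl
  set P : Matrix (Fin (r + 2)) (Fin (r + 2)) ℝ := LinearMap.toMatrix' Φ with hP
  have hPmul : ∀ x, P.mulVec x = Φ x := by
    intro x
    rw [hP, LinearMap.toMatrix'_mulVec]
  have hPapp : ∀ i j, P i j = Φ (Pi.single j 1) i := by
    intro i j
    rw [hP, LinearMap.toMatrix'_apply]
  have hPdet : P.det = E.det := by
    have ht0 : (Fin.tail (Pi.single 0 1 : Fin (r + 2) → ℝ) : Fin (r + 1) → ℝ) = 0 := by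
      funext k
      simp [Fin.tail]
    rw [det_col_h5]
    · congr 1
      ext i j
      rw [Matrix.submatrix_apply, hPapp, hΦ, Fin.cons_succ, hE, LinearMap.toMatrix'_apply]
      have ht : (Fin.tail (Pi.single j.succ 1 : Fin (r + 2) → ℝ) : Fin (r + 1) → ℝ)
          = Pi.single j 1 := by
        funext k
        simp only [Fin.tail, Pi.single_apply, Fin.succ_inj]
      rw [ht]
      rfl
    · rw [hPapp, hΦ, Fin.cons_zero, ht0, map_zero]
      simp
    · intro i
      rw [hPapp, hΦ, Fin.cons_succ, ht0, map_zero]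
      rfl
  have hFd : ∀ f : Fin (r + 1) → ι, |Fd (fun j => T (b j)) (fun j => u j - u i1 * ψ (b j)) f|
      = |Fd b u (Fin.cons i1 f)| * |E.det| := by
    intro f
    rw [← abs_mul]
    unfold Fd
    set N : Matrix (Fin (r + 2)) (Fin (r + 2)) ℝ := Matrix.of fun k : Fin (r + 2) =>
      (Fin.cons (u ((Fin.cons i1 f : Fin (r + 2) → ι) k)) (b ((Fin.cons i1 f : Fin (r + 2) → ι) k)) :
        Fin (r + 2) → ℝ) with hN
    have hNP : ∀ k j, (N * P.transpose) k j = Φ (N k) j := by
      intro k j
      rw [← hPmul]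
      simp only [Matrix.mul_apply, Matrix.transpose_apply, Matrix.mulVec, dotProduct]
      exact Finset.sum_congr rfl fun k _ => mul_comm _ _
    have h1 : |(N * P.transpose).det| = |N.det * E.det| := by
      rw [Matrix.det_mul, Matrix.det_transpose, hPdet]
    rw [← h1, det_row_h5 (N * P.transpose) 1]
    · congr 2
      ext k j
      rw [Matrix.submatrix_apply, hNP, hΦ]
      have hNk : N k.succ = Fin.cons (u (f k)) (b (f k)) := by
        rw [hN]
        rfl
      rw [hNk]
      have htl : (Fin.tail (Fin.cons (u (f k)) (b (f k)) : Fin (r + 2) → ℝ) : Fin (r + 1) → ℝ)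
          = b (f k) := Fin.tail_cons _ _
      rw [htl, Fin.cons_zero]
      refine Fin.cases ?_ (fun j => ?_) j
      · rw [Matrix.of_apply, Fin.cons_zero]
        have : (1 : Fin (r + 2)).succAbove 0 = 0 := by
          rw [Fin.succAbove_of_castSucc_lt]
          · rfl
          · simp [Fin.lt_def]
        rw [this, Fin.cons_zero]
        rfl
      · rw [Matrix.of_apply, Fin.cons_succ]
        have : (1 : Fin (r + 2)).succAbove j.succ = j.succ.succ := by
          rw [Fin.succAbove_of_le_castSucc]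
          simp [Fin.le_def]
        rw [this, Fin.cons_succ]
        rfl
    · funext j
      rw [hNP, hΦ]
      have hN0 : N 0 = Fin.cons (u i1) (b i1) := by
        rw [hN]
        rfl
      rw [hN0]
      have htl : (Fin.tail (Fin.cons (u i1) (b i1) : Fin (r + 2) → ℝ) : Fin (r + 1) → ℝ)
          = b i1 := Fin.tail_cons _ _
      rw [htl, Fin.cons_zero, hi1, he]
      refine Fin.cases ?_ (fun j => ?_) j
      · rw [Fin.cons_zero, Pi.single_eq_same]
        rw [Pi.single_eq_of_ne (by simp [Fin.ext_iff])]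
        ring
      · rw [Fin.cons_succ]
        simp only [Pi.single_apply]
        congr 1
        rw [Fin.ext_iff, Fin.ext_iff]
        simp
  refine ⟨?_, ?_, ?_, ?_⟩
  · exact span_map b hG.sp T hTs
  · intro f g hg
    rw [hGb f, hGb g, abs_mul, abs_mul]
    rw [hGb g] at hg
    have h1 := hG.uni (Fin.cons i0 f) (Fin.cons i0 g) (left_ne_zero_of_mul hg)
    have h2 : 0 ≤ |E.det| := abs_nonneg _
    calc |G b (Fin.cons i0 f)| * |E.det| ≤ (1 * |G b (Fin.cons i0 g)|) * |E.det| := by gcongr
      _ = 1 * (|G b (Fin.cons i0 g)| * |E.det|) := by ring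
  · intro f g hg
    rw [hFd f, hGb g, abs_mul]
    rw [hGb g] at hg
    have h1 := hG.bd (Fin.cons i1 f) (Fin.cons i0 g) (left_ne_zero_of_mul hg)
    have h2 : 0 ≤ |E.det| := abs_nonneg _
    calc |Fd b u (Fin.cons i1 f)| * |E.det| ≤ (D * |G b (Fin.cons i0 g)|) * |E.det| := by gcongr
      _ = D * (|G b (Fin.cons i0 g)| * |E.det|) := by ring
  · intro i
    obtain ⟨j, h1, h2⟩ := hG.ng i
    refine ⟨j, ?_, ?_⟩
    · show T (b j) = -T (b i)
      rw [h1, map_neg]
    · show u j - u i1 * ψ (b j) = -(u i - u i1 * ψ (b i))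
      rw [h1, h2, map_neg]
      ring

end Pool.Agent.Helper5.FB
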