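import Pool.Agent.Helper5.FB.Step

/-!
# FB: the main induction
-/

namespace Pool.Agent.Helper5.FB

open Finset Pool.Agent.Helper80.VR

/-- the statement for rank `r`: the total length of the fibres is at most `rank * D` -/
def StmtF (ι : Type) (D : ℝ) (r : ℕ) : Prop :=
  ∀ (b : ι → Fin r → ℝ) (u : ι → ℝ), Good b u D → ∀ (κ : Type) [Fintype κ] (lo hi : κ → ι),
    (∀ k, b (lo k) = b (hi k)) → (∀ k, u (lo k) ≤ u (hi k)) → (∀ k, b (lo k) ≠ 0) →
    (∀ i j, i ≠ j → LinearIndependent ℝ ![b (lo i), b (lo j)]) →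
    ∑ k, (u (hi k) - u (lo k))
      ≤ (Module.finrank ℝ (Submodule.span ℝ (Set.range fun k => b (lo k))) : ℝ) * D

theorem smallF {ι : Type} {D : ℝ} {r : ℕ} (ih : StmtF ι D r) (b : ι → Fin (r + 1) → ℝ)
    (u : ι → ℝ) (hG : Good b u D) (κ : Type) [Fintype κ] (lo hi : κ → ι)
    (hb : ∀ k, b (lo k) = b (hi k)) (hle : ∀ k, u (lo k) ≤ u (hi k))
    (h0 : ∀ k, b (lo k) ≠ 0)
    (hp : ∀ i j, i ≠ j → LinearIndependent ℝ ![b (lo i), b (lo j)])
    (hlt : Module.finrank ℝ (Submodule.span ℝ (Set.range fun k => b (lo k))) < r + 1) :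
    ∑ k, (u (hi k) - u (lo k))
      ≤ (Module.finrank ℝ (Submodule.span ℝ (Set.range fun k => b (lo k))) : ℝ) * D := by
  set U := Submodule.span ℝ (Set.range fun k => b (lo k)) with hU
  have hne : U ≠ ⊤ := by
    intro h
    rw [h, finrank_top, Module.finrank_fin_fun] at hlt
    omega
  obtain ⟨x, hx⟩ : ∃ x, b x ∉ U := by
    by_contra hcon
    push Not at hcon
    apply hne
    rw [eq_top_iff, ← hG.sp, Submodule.span_le]
    rintro _ ⟨k, rfl⟩
    exact hcon k
  have hx0 : b x ≠ 0 := fun h => hx (h ▸ U.zero_mem)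
  obtain ⟨T, ψ, c0, hTs, hTk, hψ, hc0, hGb, hgood⟩ := contr hG x hx0
  have hdisj : Disjoint U (LinearMap.ker T) := by
    rw [hTk, Submodule.disjoint_def]
    intro y hyU hy
    obtain ⟨a, rfl⟩ := Submodule.mem_span_singleton.1 hy
    by_cases ha : a = 0
    · simp [ha]
    · exact absurd ((Submodule.smul_mem_iff U ha).1 hyU) hx
  have hmem : ∀ k, b (lo k) ∈ U := fun k => Submodule.subset_span ⟨k, rfl⟩
  have hres := ih (fun j => T (b j)) (fun j => u j - u x * ψ (b j)) (hgood x rfl) κ lo hi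
    (fun k => by rw [hb k]) (fun k => by
      show u (lo k) - u x * ψ (b (lo k)) ≤ u (hi k) - u x * ψ (b (hi k))
      rw [← hb k]
      have := hle k
      linarith) ?_ ?_
  · have himg : Set.range (fun k => T (b (lo k))) = T '' (Set.range fun k => b (lo k)) := by
      rw [← Set.range_comp]
      rfl
    have hfin : Module.finrank ℝ (Submodule.map T U) = Module.finrank ℝ U := by
      have hinj : Function.Injective (T.domRestrict U) := by
        rw [← LinearMap.ker_eq_bot, LinearMap.ker_eq_bot']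
        intro y hy
        have h1 : (y : Fin (r + 1) → ℝ) ∈ LinearMap.ker T := hy
        have := (Submodule.disjoint_def.1 hdisj) y y.2 h1
        exact Subtype.ext this
      have h2 := LinearMap.finrank_range_of_inj hinj
      rw [LinearMap.range_domRestrict] at h2
      exact h2
    rw [himg, Submodule.span_image, ← hU, hfin] at hres
    refine le_trans (le_of_eq ?_) hres
    refine Finset.sum_congr rfl fun k _ => ?_
    rw [← hb k]
    ring
  · intro k h
    exact h0 k ((Submodule.disjoint_def.1 hdisj) _ (hmem k) h)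
  · intro i j hij
    have h1 := hp i j hij
    have h2 : LinearIndependent ℝ (T ∘ ![b (lo i), b (lo j)]) := by
      refine h1.map (hdisj.mono_left ?_)
      rw [Submodule.span_le]
      rintro _ ⟨l, rfl⟩
      fin_cases l
      · exact hmem i
      · exact hmem j
    convert h2 using 1
    ext l
    fin_cases l <;> rfl

theorem oneStep {ι : Type} {D : ℝ} {r : ℕ} (ih : StmtF ι D (r + 1)) (b : ι → Fin (r + 2) → ℝ)
    (u : ι → ℝ) (hG : Good b u D) (κ : Type) [Fintype κ] [DecidableEq κ] (lo hi : κ → ι)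
    (hb : ∀ k, b (lo k) = b (hi k)) (hle : ∀ k, u (lo k) ≤ u (hi k))
    (h0 : ∀ k, b (lo k) ≠ 0)
    (hp : ∀ i j, i ≠ j → LinearIndependent ℝ ![b (lo i), b (lo j)]) (i : κ) :
    ∑ P ∈ (lines fun k => b (lo k)) with i ∈ P, Fw (fun k => u (hi k) - u (lo k)) P i
      ≤ ((r : ℝ) + 1) * D := by
  classical
  have hD := D_nonneg hG (lo i)
  obtain ⟨T, ψ, c0, hTs, hTk, hψ, hc0, hGb, hgood⟩ := contr hG (lo i) (h0 i)
  set L : Finset (Finset κ) := (lines fun k => b (lo k)).filter (fun P => i ∈ P) with hL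
  have hstep : ∀ P : {P // P ∈ L}, ∃ j ∈ P.1, j ≠ i ∧ ∃ x y z w : ι, T (b x) = T (b (lo j)) ∧
      T (b y) = T (b (lo j)) ∧ T (b z) = T (b (lo j)) ∧ T (b w) = T (b (lo j)) ∧
      u x - u (lo i) * ψ (b x) ≤ u y - u (lo i) * ψ (b y) ∧
      u z - u (hi i) * ψ (b z) ≤ u w - u (hi i) * ψ (b w) ∧
      2 * Fw (fun k => u (hi k) - u (lo k)) P.1 i
        ≤ (u y - u (lo i) * ψ (b y)) - (u x - u (lo i) * ψ (b x))
          + ((u w - u (hi i) * ψ (b w)) - (u z - u (hi i) * ψ (b z))) := by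
    intro P
    have h1 := (Finset.mem_filter.1 P.2)
    exact lineStep hG lo hi hb hle hp i T ψ hTk hψ hgood P.1 h1.1 h1.2
  choose j hjP hji x y z w hx hy hz hw hxy hzw hF using hstep
  have hne : ∀ P, T (b (lo (j P))) ≠ 0 := by
    intro P h
    have h3 : b (lo (j P)) ∈ LinearMap.ker T := h
    rw [hTk, Submodule.mem_span_singleton] at h3
    obtain ⟨a, ha⟩ := h3
    exact not_mem_of_indep (hp i (j P) (hji P).symm) a ha
  have hind : ∀ P Q, P ≠ Q → LinearIndependent ℝ ![T (b (lo (j P))), T (b (lo (j Q)))] := by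
    intro P Q hPQ
    have hP1 := Finset.mem_filter.1 P.2
    have hQ1 := Finset.mem_filter.1 Q.2
    have h3 := indep3 (fun k => b (lo k)) hp hP1.1 hQ1.1 (fun h => hPQ (Subtype.ext h)) hP1.2 hQ1.2
      (hjP P) (hjP Q) (hji P) (hji Q)
    rw [LinearIndependent.pair_iff]
    intro s t hst
    have h4 : s • b (lo (j P)) + t • b (lo (j Q)) ∈ LinearMap.ker T := by
      rw [LinearMap.mem_ker, map_add, map_smul, map_smul]
      exact hst
    rw [hTk, Submodule.mem_span_singleton] at h4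
    obtain ⟨c, hc⟩ := h4
    have h5 := (Fintype.linearIndependent_iff.1 h3) ![-c, s, t] (by
      rw [Fin.sum_univ_three]
      change (-c) • b (lo i) + s • b (lo (j P)) + t • b (lo (j Q)) = 0
      rw [neg_smul, hc]
      abel)
    exact ⟨h5 1, h5 2⟩
  have hfr : ∀ v : {P // P ∈ L} → Fin (r + 1) → ℝ,
      (Module.finrank ℝ (Submodule.span ℝ (Set.range v)) : ℝ) * D ≤ ((r : ℝ) + 1) * D := by
    intro v
    have h1 := Submodule.finrank_le (Submodule.span ℝ (Set.range v))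
    rw [Module.finrank_fin_fun] at h1
    have h2 : (Module.finrank ℝ (Submodule.span ℝ (Set.range v)) : ℝ) ≤ (r : ℝ) + 1 := by
      exact_mod_cast h1
    exact mul_le_mul_of_nonneg_right h2 hD
  have r1 := (ih (fun j => T (b j)) (fun j => u j - u (lo i) * ψ (b j)) (hgood (lo i) rfl)
    {P // P ∈ L} x y (fun P => (hx P).trans (hy P).symm) (fun P => hxy P)
    (fun P => by
      show T (b (x P)) ≠ 0
      rw [hx P]
      exact hne P)
    (fun P Q hPQ => by
      show LinearIndependent ℝ ![T (b (x P)), T (b (x Q))]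
      rw [hx P, hx Q]
      exact hind P Q hPQ)).trans (hfr _)
  have r2 := (ih (fun j => T (b j)) (fun j => u j - u (hi i) * ψ (b j))
    (hgood (hi i) (hb i).symm)
    {P // P ∈ L} z w (fun P => (hz P).trans (hw P).symm) (fun P => hzw P)
    (fun P => by
      show T (b (z P)) ≠ 0
      rw [hz P]
      exact hne P)
    (fun P Q hPQ => by
      show LinearIndependent ℝ ![T (b (z P)), T (b (z Q))]
      rw [hz P, hz Q]
      exact hind P Q hPQ)).trans (hfr _)
  have h1 : ∑ P ∈ L, Fw (fun k => u (hi k) - u (lo k)) P i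
      = ∑ P : {P // P ∈ L}, Fw (fun k => u (hi k) - u (lo k)) P.1 i :=
    (Finset.sum_coe_sort L fun P => Fw (fun k => u (hi k) - u (lo k)) P i).symm
  rw [h1]
  have h2 : ∑ P : {P // P ∈ L}, 2 * Fw (fun k => u (hi k) - u (lo k)) P.1 i
      ≤ ∑ P : {P // P ∈ L}, (((u (y P) - u (lo i) * ψ (b (y P))) - (u (x P) - u (lo i) * ψ (b (x P))))
          + ((u (w P) - u (hi i) * ψ (b (w P))) - (u (z P) - u (hi i) * ψ (b (z P))))) :=
    Finset.sum_le_sum fun P _ => hF P
  rw [← Finset.mul_sum, Finset.sum_add_distrib] at h2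
  have r1' : ∑ P : {P // P ∈ L}, ((u (y P) - u (lo i) * ψ (b (y P)))
      - (u (x P) - u (lo i) * ψ (b (x P)))) ≤ ((r : ℝ) + 1) * D := r1
  have r2' : ∑ P : {P // P ∈ L}, ((u (w P) - u (hi i) * ψ (b (w P)))
      - (u (z P) - u (hi i) * ψ (b (z P)))) ≤ ((r : ℝ) + 1) * D := r2
  linarith

/-- the average over the contracted element -/
theorem average {κ : Type} [Fintype κ] [DecidableEq κ] (L : Finset (Finset κ)) (hL : Linear L)
    (h : κ → ℝ) (B : ℝ) (hh : ∀ k, 0 ≤ h k)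
    (hB : ∀ i, ∑ P ∈ L with i ∈ P, Fw h P i ≤ B) :
    (∑ k, h k) ^ 2 - (∑ k, h k ^ 2 + ∑ P ∈ L with 3 ≤ #P, ((∑ k ∈ P, h k) ^ 2 / 2
      - ∑ k ∈ P, h k ^ 2)) ≤ (∑ k, h k) * B := by
  have h1 : ∑ i, h i * ∑ P ∈ L with i ∈ P, Fw h P i ≤ ∑ i, h i * B :=
    Finset.sum_le_sum fun i _ => mul_le_mul_of_nonneg_left (hB i) (hh i)
  rw [← Finset.sum_mul] at h1
  refine le_trans (le_of_eq ?_) h1
  have h2 : ∑ i, h i * ∑ P ∈ L with i ∈ P, Fw h P i = ∑ P ∈ L, ∑ i ∈ P, h i * Fw h P i := by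
    have e1 : ∀ i, h i * ∑ P ∈ L with i ∈ P, Fw h P i
        = ∑ P ∈ L, if i ∈ P then h i * Fw h P i else 0 := by
      intro i
      rw [Finset.sum_filter, Finset.mul_sum]
      refine Finset.sum_congr rfl fun P _ => ?_
      split_ifs <;> simp
    rw [Finset.sum_congr rfl fun i _ => e1 i, Finset.sum_comm]
    refine Finset.sum_congr rfl fun P _ => ?_
    rw [Finset.sum_ite_mem, Finset.univ_inter]
  rw [h2]
  have h3 := decomp L hL (fun i j => h i * h j)
  have e3 : ∑ i, ∑ j, h i * h j = (∑ k, h k) ^ 2 := by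
    rw [sq, Finset.sum_mul_sum]
  have e4 : ∑ i, h i * h i = ∑ k, h k ^ 2 := Finset.sum_congr rfl fun i _ => (sq _).symm
  have e5 : ∀ P : Finset κ, ∑ i ∈ P, ∑ j ∈ P, h i * h j = (∑ k ∈ P, h k) ^ 2 := by
    intro P
    rw [sq, Finset.sum_mul_sum]
  have e6 : ∀ P : Finset κ, ∑ i ∈ P, h i * h i = ∑ k ∈ P, h k ^ 2 := fun P =>
    Finset.sum_congr rfl fun i _ => (sq _).symm
  have e7 : ∑ P ∈ L, (∑ i ∈ P, ∑ j ∈ P, h i * h j - ∑ i ∈ P, h i * h i)
      = ∑ P ∈ L, ((∑ k ∈ P, h k) ^ 2 - ∑ k ∈ P, h k ^ 2) :=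
    Finset.sum_congr rfl fun P _ => by rw [e5 P, e6 P]
  rw [e3, e4, e7] at h3
  have h4 : ∑ P ∈ L, ∑ i ∈ P, h i * Fw h P i
      = ∑ P ∈ L, (((∑ k ∈ P, h k) ^ 2 - ∑ k ∈ P, h k ^ 2)
        - if 3 ≤ #P then (∑ k ∈ P, h k) ^ 2 / 2 - ∑ k ∈ P, h k ^ 2 else 0) := by
    refine Finset.sum_congr rfl fun P _ => ?_
    by_cases hc : 3 ≤ #P
    · have : ∀ i, Fw h P i = (∑ k ∈ P, h k) / 2 := fun i => by
        unfold Fw
        rw [if_pos hc]
      rw [Finset.sum_congr rfl fun i _ => by rw [this i], ← Finset.sum_mul, if_pos hc]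
      ring
    · have : ∀ i, h i * Fw h P i = h i * (∑ k ∈ P, h k) - h i ^ 2 := fun i => by
        unfold Fw
        rw [if_neg hc]
        ring
      rw [Finset.sum_congr rfl fun i _ => this i, Finset.sum_sub_distrib, ← Finset.sum_mul,
        if_neg hc]
      ring
  have h5 : ∑ P ∈ L, (((∑ k ∈ P, h k) ^ 2 - ∑ k ∈ P, h k ^ 2)
        - if 3 ≤ #P then (∑ k ∈ P, h k) ^ 2 / 2 - ∑ k ∈ P, h k ^ 2 else 0)
      = ∑ P ∈ L, ((∑ k ∈ P, h k) ^ 2 - ∑ k ∈ P, h k ^ 2)
        - ∑ P ∈ L, (if 3 ≤ #P then (∑ k ∈ P, h k) ^ 2 / 2 - ∑ k ∈ P, h k ^ 2 else 0) :=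
    Finset.sum_sub_distrib (fun P => ((∑ k ∈ P, h k) ^ 2 - ∑ k ∈ P, h k ^ 2))
      (fun P => if 3 ≤ #P then (∑ k ∈ P, h k) ^ 2 / 2 - ∑ k ∈ P, h k ^ 2 else 0)
  have h6 : ∑ P ∈ L with 3 ≤ #P, ((∑ k ∈ P, h k) ^ 2 / 2 - ∑ k ∈ P, h k ^ 2)
      = ∑ P ∈ L, (if 3 ≤ #P then (∑ k ∈ P, h k) ^ 2 / 2 - ∑ k ∈ P, h k ^ 2 else 0) :=
    Finset.sum_filter (fun P => 3 ≤ #P) (fun P => (∑ k ∈ P, h k) ^ 2 / 2 - ∑ k ∈ P, h k ^ 2)
  rw [h4, h5, h6]
  linarith

theorem fullF {ι : Type} {D : ℝ} {r : ℕ} (ih : StmtF ι D (r + 1)) (b : ι → Fin (r + 2) → ℝ)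
    (u : ι → ℝ) (hG : Good b u D) (κ : Type) [Fintype κ] (lo hi : κ → ι)
    (hb : ∀ k, b (lo k) = b (hi k)) (hle : ∀ k, u (lo k) ≤ u (hi k))
    (h0 : ∀ k, b (lo k) ≠ 0)
    (hp : ∀ i j, i ≠ j → LinearIndependent ℝ ![b (lo i), b (lo j)])
    (hs : Submodule.span ℝ (Set.range fun k => b (lo k)) = ⊤) :
    ∑ k, (u (hi k) - u (lo k)) ≤ ((r : ℝ) + 2) * D := by
  classical
  set h : κ → ℝ := fun k => u (hi k) - u (lo k) with hh
  have hh0 : ∀ k, 0 ≤ h k := fun k => sub_nonneg.2 (hle k)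
  set H : ℝ := ∑ k, h k with hH
  have hH0 : 0 ≤ H := Finset.sum_nonneg fun k _ => hh0 k
  rcases isEmpty_or_nonempty ι with hι | hι
  · have : IsEmpty κ := ⟨fun k => hι.elim (lo k)⟩
    have h1 : (⊤ : Submodule ℝ (Fin (r + 2) → ℝ)) = ⊥ := by
      rw [← hs, Submodule.span_eq_bot]
      rintro _ ⟨k, rfl⟩
      exact (this.false k).elim
    have h2 := finrank_top ℝ (Fin (r + 2) → ℝ)
    rw [h1, finrank_bot, Module.finrank_fin_fun] at h2
    omega
  have hD : 0 ≤ D := D_nonneg hG (Classical.arbitrary ι)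
  have hr0 : (0 : ℝ) ≤ r := Nat.cast_nonneg r
  rcases hH0.eq_or_lt with hz | hpos
  · rw [← hz]
    positivity
  set a : κ → ℝ := fun k => ((r : ℝ) + 2) * h k / H with ha
  have hasum : ∀ J : Finset κ, ∑ k ∈ J, a k = ((r : ℝ) + 2) * (∑ k ∈ J, h k) / H := by
    intro J
    rw [ha, Finset.mul_sum, Finset.sum_div]
  have hasum1 : ∑ k, a k = ((r + 2 : ℕ) : ℝ) := by
    rw [hasum, ← hH, mul_div_assoc, div_self hpos.ne', mul_one]
    push_cast
    ring
  by_cases hbal : Bal (fun k => b (lo k)) a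
  swap
  · unfold Bal at hbal
    push Not at hbal
    obtain ⟨U, J, hJU, hlt⟩ := hbal
    have hJne : J.Nonempty := by
      rw [Finset.nonempty_iff_ne_empty]
      rintro rfl
      rw [Finset.sum_empty] at hlt
      exact absurd hlt (not_lt.2 (Nat.cast_nonneg _))
    set d := Module.finrank ℝ (Submodule.span ℝ (Set.range fun k : {k // k ∈ J} => b (lo k)))
      with hd
    have hdU : d ≤ Module.finrank ℝ U := by
      apply Submodule.finrank_mono
      rw [Submodule.span_le]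
      rintro _ ⟨k, rfl⟩
      exact hJU k k.2
    have hd1 : 1 ≤ d := by
      obtain ⟨i, hi⟩ := hJne
      rw [hd, Nat.one_le_iff_ne_zero]
      intro hz
      rw [Submodule.finrank_eq_zero] at hz
      have h1 : b (lo i) ∈ Submodule.span ℝ (Set.range fun k : {k // k ∈ J} => b (lo k)) :=
        Submodule.subset_span ⟨⟨i, hi⟩, rfl⟩
      rw [hz, Submodule.mem_bot] at h1
      exact h0 i h1
    have hdU' : (d : ℝ) < ∑ k ∈ J, a k := by
      refine lt_of_le_of_lt ?_ hlt
      exact_mod_cast hdU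
    have hJle : ∑ k ∈ J, h k ≤ H :=
      Finset.sum_le_sum_of_subset_of_nonneg (Finset.subset_univ J) fun k _ _ => hh0 k
    rw [hasum, lt_div_iff₀ hpos] at hdU'
    have hdlt : d < r + 1 + 1 := by
      by_contra hcon
      push Not at hcon
      have h1 : (r : ℝ) + 2 ≤ d := by
        have : ((r + 1 + 1 : ℕ) : ℝ) ≤ d := by exact_mod_cast hcon
        push_cast at this
        linarith
      nlinarith
    have hsm := smallF ih b u hG {k // k ∈ J} (fun k => lo k) (fun k => hi k)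
      (fun k => hb k) (fun k => hle k) (fun k => h0 k)
      (fun i j hij => hp i j fun h => hij (Subtype.ext h)) hdlt
    have hsum : ∑ k : {k // k ∈ J}, (u (hi k) - u (lo k)) = ∑ k ∈ J, h k :=
      Finset.sum_coe_sort J fun k => u (hi k) - u (lo k)
    rw [hsum, ← hd] at hsm
    have hd0 : (0 : ℝ) < d := by exact_mod_cast hd1
    have h3 : (d : ℝ) * H < d * (((r : ℝ) + 2) * D) := by
      calc (d : ℝ) * H < ((r : ℝ) + 2) * ∑ k ∈ J, h k := hdU'
        _ ≤ ((r : ℝ) + 2) * (d * D) := by gcongr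
        _ = d * (((r : ℝ) + 2) * D) := by ring
    exact (lt_of_mul_lt_mul_left h3 hd0.le).le
  · have hB := average (lines fun k => b (lo k)) (linear_lines (fun k => b (lo k)) hp) h
      (((r : ℝ) + 1) * D) hh0
      (fun i => oneStep ih b u hG κ lo hi hb hle h0 hp i)
    have hpr := projW (fun k => b (lo k)) hs hp a hbal hasum1
      ((lines fun k => b (lo k)).filter fun P => 3 ≤ #P) (Finset.filter_subset _ _)
    have e1 : ∑ i, a i ^ 2 + ∑ P ∈ (lines fun k => b (lo k)) with 3 ≤ #P,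
        ((∑ i ∈ P, a i) ^ 2 / 2 - ∑ i ∈ P, a i ^ 2)
        = (((r : ℝ) + 2) / H) ^ 2 * (∑ k, h k ^ 2 + ∑ P ∈ (lines fun k => b (lo k)) with 3 ≤ #P,
          ((∑ k ∈ P, h k) ^ 2 / 2 - ∑ k ∈ P, h k ^ 2)) := by
      have e2 : ∀ J : Finset κ, ∑ k ∈ J, a k ^ 2 = (((r : ℝ) + 2) / H) ^ 2 * ∑ k ∈ J, h k ^ 2 := by
        intro J
        rw [Finset.mul_sum]
        refine Finset.sum_congr rfl fun k _ => ?_
        rw [ha]
        ring
      have e3 : (((r : ℝ) + 2) / H) ^ 2 * ∑ P ∈ (lines fun k => b (lo k)) with 3 ≤ #P,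
          ((∑ k ∈ P, h k) ^ 2 / 2 - ∑ k ∈ P, h k ^ 2)
          = ∑ P ∈ (lines fun k => b (lo k)) with 3 ≤ #P,
            ((∑ i ∈ P, a i) ^ 2 / 2 - ∑ i ∈ P, a i ^ 2) := by
        rw [Finset.mul_sum]
        refine Finset.sum_congr rfl fun P _ => ?_
        rw [hasum, e2]
        ring
      rw [mul_add, e2, e3]
    rw [e1] at hpr
    set X : ℝ := ∑ k, h k ^ 2 + ∑ P ∈ (lines fun k => b (lo k)) with 3 ≤ #P,
          ((∑ k ∈ P, h k) ^ 2 / 2 - ∑ k ∈ P, h k ^ 2) with hX
    rw [← hH] at hB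
    push_cast at hpr
    have h1 : ((r : ℝ) + 2) * X ≤ H ^ 2 := by
      have h2 : (((r : ℝ) + 2) / H) ^ 2 * X = ((r : ℝ) + 2) ^ 2 * X / H ^ 2 := by
        rw [div_pow]
        ring
      rw [h2, div_le_iff₀ (by positivity)] at hpr
      have h3 : ((r : ℝ) + 2) * (((r : ℝ) + 2) * X) ≤ ((r : ℝ) + 2) * H ^ 2 := by
        calc ((r : ℝ) + 2) * (((r : ℝ) + 2) * X) = ((r : ℝ) + 2) ^ 2 * X := by ring
          _ ≤ ((r : ℝ) + 2) * H ^ 2 := hpr
      exact le_of_mul_le_mul_left h3 (by linarith)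
    -- H^2 - X ≤ H (r+1) D
    have h4 : ((r : ℝ) + 1) * H ^ 2 ≤ ((r : ℝ) + 1) * (H * (((r : ℝ) + 2) * D)) := by
      nlinarith
    have h5 : H ^ 2 ≤ H * (((r : ℝ) + 2) * D) := le_of_mul_le_mul_left h4 (by linarith)
    rw [sq] at h5
    exact le_of_mul_le_mul_left h5 hpos

theorem stmtF_all (ι : Type) (D : ℝ) : ∀ r : ℕ, StmtF ι D r := by
  intro r
  induction r with
  | zero =>
    intro b u _ κ _ lo hi _ _ h0 _
    have : IsEmpty κ := ⟨fun k => h0 k (Subsingleton.elim _ _)⟩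
    rw [Module.finrank_zero_of_subsingleton]
    simp
  | succ r ih =>
    intro b u hG κ _ lo hi hb hle h0 hp
    by_cases hlt : Module.finrank ℝ (Submodule.span ℝ (Set.range fun k => b (lo k))) < r + 1
    · exact smallF ih b u hG κ lo hi hb hle h0 hp hlt
    · have hle' := Submodule.finrank_le (Submodule.span ℝ (Set.range fun k => b (lo k)))
      rw [Module.finrank_fin_fun] at hle'
      have heq : Module.finrank ℝ (Submodule.span ℝ (Set.range fun k => b (lo k))) = r + 1 := by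
        omega
      rw [heq]
      have hs : Submodule.span ℝ (Set.range fun k => b (lo k)) = ⊤ := by
        apply Submodule.eq_top_of_finrank_eq
        rw [heq, Module.finrank_fin_fun]
      match r, ih, b, hG, hb, h0, hp, hs with
      | 0, ih, b, hG, hb, h0, hp, hs =>
        have hsub : Subsingleton κ := by
          constructor
          intro i j
          by_contra hij
          have h1 := (hp i j hij).fintype_card_le_finrank
          simp at h1
        rcases isEmpty_or_nonempty κ with hκ | ⟨⟨k⟩⟩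
        · have h1 : (⊤ : Submodule ℝ (Fin (0 + 1) → ℝ)) = ⊥ := by
            rw [← hs, Submodule.span_eq_bot]
            rintro _ ⟨k, rfl⟩
            exact (hκ.false k).elim
          have h2 := finrank_top ℝ (Fin (0 + 1) → ℝ)
          rw [h1, finrank_bot, Module.finrank_fin_fun] at h2
          omega
        · rw [Fintype.sum_subsingleton _ k]
          have hb0 : b (lo k) 0 ≠ 0 := by
            intro h
            apply h0 k
            funext x
            have hx : x = 0 := Fin.ext (by omega)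
            rw [hx]
            exact h
          have hg : G b ![lo k] = b (lo k) 0 := by
            unfold G
            rw [Matrix.det_fin_one]
            rfl
          have h1 := hG.bd ![lo k, hi k] ![lo k] (by rw [hg]; exact hb0)
          have hF : Fd b u ![lo k, hi k] = u (lo k) * b (lo k) 0 - b (lo k) 0 * u (hi k) := by
            unfold Fd
            rw [Matrix.det_fin_two]
            have : b (hi k) 0 = b (lo k) 0 := by rw [hb k]
            simp only [Matrix.of_apply, Matrix.cons_val_zero, Matrix.cons_val_one, Fin.cons_zero]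
            have e1 : (Fin.cons (u (hi k)) (b (hi k)) : Fin (0 + 1 + 1) → ℝ) 1 = b (hi k) 0 := rfl
            have e2 : (Fin.cons (u (lo k)) (b (lo k)) : Fin (0 + 1 + 1) → ℝ) 1 = b (lo k) 0 := rfl
            rw [e1, e2, this]
          rw [hF, hg] at h1
          have h2 : u (lo k) * b (lo k) 0 - b (lo k) 0 * u (hi k)
              = -(b (lo k) 0 * (u (hi k) - u (lo k))) := by ring
          rw [h2, abs_neg, abs_mul, abs_of_nonneg (sub_nonneg.2 (hle k))] at h1
          have h3 : 0 < |b (lo k) 0| := abs_pos.2 hb0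
          have h4 : |b (lo k) 0| * (u (hi k) - u (lo k)) ≤ |b (lo k) 0| * D := by linarith
          have h5 := le_of_mul_le_mul_left h4 h3
          push_cast
          linarith
      | r + 1, ih, b, hG, hb, h0, hp, hs =>
        have := fullF ih b u hG κ lo hi hb hle h0 hp hs
        push_cast
        linarith

end Pool.Agent.Helper5.FB
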