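import Pool.Agent.Helper5.FB.Contract

/-!
# FB: one contraction step
-/

namespace Pool.Agent.Helper5.FB

open Finset Pool.Agent.Helper80.VR

theorem D_nonneg {ι : Type} {r : ℕ} {b : ι → Fin r → ℝ} {u : ι → ℝ} {D : ℝ}
    (hG : Good b u D) (i : ι) : 0 ≤ D := by
  obtain ⟨g, hg⟩ := exists_G_ne b hG.sp
  have h1 := hG.bd (fun _ => i) g hg
  have h2 : 0 < |G b g| := abs_pos.2 hg
  have h3 : 0 ≤ D * |G b g| := (abs_nonneg _).trans h1
  exact nonneg_of_mul_nonneg_left h3 h2

theorem par {ι : Type} {r : ℕ} {b : ι → Fin (r + 1) → ℝ} {u : ι → ℝ} {D : ℝ}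
    (hG : Good b u D) (i j : ι) (c : ℝ) (hi : b i ≠ 0) (hj : b j = c • b i) (hc : c ≠ 0) :
    |c| = 1 := by
  classical
  obtain ⟨T, ψ, c0, hTs, hTk, hψ, hc0, hGb, hgood⟩ := contr hG i hi
  obtain ⟨g, hg⟩ := exists_G_ne (fun j => T (b j)) (hgood i rfl).sp
  rw [hGb] at hg
  have h1 : G b (Fin.cons i g) ≠ 0 := left_ne_zero_of_mul hg
  have h2 : G b (Fin.cons j g) = c * G b (Fin.cons i g) := by
    unfold G
    have e1 : (Matrix.of fun k : Fin (r + 1) => b ((Fin.cons j g : Fin (r + 1) → ι) k))
        = Matrix.updateRow (Matrix.of fun k : Fin (r + 1) => b ((Fin.cons i g : Fin (r + 1) → ι) k))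
          0 (c • b i) := by
      ext k l
      rw [Matrix.updateRow_apply]
      refine Fin.cases ?_ (fun k => ?_) k
      · rw [if_pos rfl, Matrix.of_apply, Fin.cons_zero, hj]
      · rw [if_neg (Fin.succ_ne_zero k), Matrix.of_apply, Matrix.of_apply, Fin.cons_succ,
          Fin.cons_succ]
    rw [e1, Matrix.det_updateRow_smul]
    congr 2
    ext k l
    rw [Matrix.updateRow_apply]
    refine Fin.cases ?_ (fun k => ?_) k
    · rw [if_pos rfl, Matrix.of_apply, Fin.cons_zero]
    · rw [if_neg (Fin.succ_ne_zero k)]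
  have h3 : G b (Fin.cons j g) ≠ 0 := by
    rw [h2]
    exact mul_ne_zero hc h1
  have h4 := hG.uni (Fin.cons j g) (Fin.cons i g) h1
  have h5 := hG.uni (Fin.cons i g) (Fin.cons j g) h3
  have h6 : 0 < |G b (Fin.cons i g)| := abs_pos.2 h1
  rw [h2, abs_mul] at h4 h5
  apply le_antisymm
  · have : |c| * |G b (Fin.cons i g)| ≤ 1 * |G b (Fin.cons i g)| := h4
    exact le_of_mul_le_mul_right this h6
  · have : 1 * |G b (Fin.cons i g)| ≤ |c| * |G b (Fin.cons i g)| := by linarith
    exact le_of_mul_le_mul_right this h6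

theorem not_mem_of_indep {V : Type*} [AddCommGroup V] [Module ℝ V] {x y : V}
    (h : LinearIndependent ℝ ![x, y]) (a : ℝ) : a • x ≠ y := by
  intro h1
  have := (LinearIndependent.pair_iff.1 h) a (-1) (by rw [h1]; simp)
  norm_num at this

theorem tri {ι : Type} {r : ℕ} {b : ι → Fin (r + 2) → ℝ} {u : ι → ℝ} {D : ℝ}
    (hG : Good b u D) (i l l' : ι) (h1 : LinearIndependent ℝ ![b i, b l'])
    (h2 : LinearIndependent ℝ ![b l, b l']) (c : ℝ)
    (h : b l - b l' = c • b i) : |c| = 1 := by
  have hl' : b l' ≠ 0 := by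
    have := h1.ne_zero 1
    simpa using this
  obtain ⟨T, ψ, c0, hTs, hTk, hψ, hc0, hGb, hgood⟩ := contr hG l' hl'
  have hker : T (b l') = 0 := by
    have : b l' ∈ LinearMap.ker T := by
      rw [hTk]
      exact Submodule.mem_span_singleton_self _
    exact this
  have hTl : T (b l) = c • T (b i) := by
    have := congrArg T h
    rw [map_sub, hker, sub_zero, map_smul] at this
    exact this
  have key : ∀ x, LinearIndependent ℝ ![b x, b l'] → T (b x) ≠ 0 := by
    intro x hx h0
    have h3 : b x ∈ LinearMap.ker T := h0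
    rw [hTk, Submodule.mem_span_singleton] at h3
    obtain ⟨a, ha⟩ := h3
    have hx' : LinearIndependent ℝ ![b l', b x] := by
      rw [LinearIndependent.pair_symm_iff]
      exact hx
    exact not_mem_of_indep hx' a ha
  have hc : c ≠ 0 := by
    rintro rfl
    rw [zero_smul] at hTl
    exact key l h2 hTl
  exact par (hgood l' rfl) i l c (key i h1) hTl hc

/-- three vectors on two different lines through `i` are independent -/
theorem indep3 {ι : Type} [Fintype ι] {r : ℕ} (v : ι → Fin r → ℝ)
    (hp : ∀ i j, i ≠ j → LinearIndependent ℝ ![v i, v j]) {i j k : ι} {P Q : Finset ι}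
    (hP : P ∈ lines v) (hQ : Q ∈ lines v) (hPQ : P ≠ Q) (hiP : i ∈ P) (hiQ : i ∈ Q)
    (hj : j ∈ P) (hk : k ∈ Q) (hji : j ≠ i) (hki : k ≠ i) :
    LinearIndependent ℝ ![v i, v j, v k] := by
  classical
  have hL := linear_lines v hp
  have hjk : j ≠ k := by
    rintro rfl
    exact hPQ ((hL i j hji.symm).unique ⟨hP, hiP, hj⟩ ⟨hQ, hiQ, hk⟩)
  have hmem : ∀ x y : ι, x ≠ y → ∀ z, v z ∈ Submodule.span ℝ ({v x, v y} : Set (Fin r → ℝ)) →
      ∀ R ∈ lines v, x ∈ R → y ∈ R → z ∈ R := by
    intro x y hxy z hz R hR hx hy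
    have hR' : line v x y ∈ lines v := by
      simp only [lines, mem_image, mem_filter, mem_univ, true_and]
      exact ⟨(x, y), hxy, rfl⟩
    have hx' : x ∈ line v x y := by
      simp only [line, mem_filter, mem_univ, true_and]
      exact Submodule.subset_span (by simp)
    have hy' : y ∈ line v x y := by
      simp only [line, mem_filter, mem_univ, true_and]
      exact Submodule.subset_span (by simp)
    rw [(hL x y hxy).unique ⟨hR, hx, hy⟩ ⟨hR', hx', hy'⟩]
    simp only [line, mem_filter, mem_univ, true_and]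
    exact hz
  have hcons : LinearIndependent ℝ (Fin.cons (v i) ![v j, v k] : Fin 3 → Fin r → ℝ) := by
    rw [linearIndependent_finCons]
    refine ⟨hp _ _ hjk, ?_⟩
    intro hm
    have hr : Set.range ![v j, v k] = {v j, v k} := by
      rw [Matrix.range_cons, Matrix.range_cons, Matrix.range_empty, Set.union_empty]
      rfl
    rw [hr, Submodule.mem_span_pair] at hm
    obtain ⟨x, y, hxy⟩ := hm
    have hy : y ≠ 0 := by
      rintro rfl
      rw [zero_smul, add_zero] at hxy
      exact not_mem_of_indep (hp j i hji) x hxy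
    have h4 : v k ∈ Submodule.span ℝ ({v i, v j} : Set (Fin r → ℝ)) := by
      rw [Submodule.mem_span_pair]
      refine ⟨y⁻¹, -(y⁻¹ * x), ?_⟩
      rw [← hxy, smul_add, smul_smul, smul_smul, inv_mul_cancel₀ hy, one_smul, neg_smul]
      abel
    have h6 : k ∈ P := hmem i j hji.symm k h4 P hP hiP hj
    exact hPQ ((hL i k hki.symm).unique ⟨hP, hiP, h6⟩ ⟨hQ, hiQ, hk⟩)
  exact hcons

private theorem hull_h5 (A B C E : ℝ) :
    |(A + B) / 2 - (C + E) / 2| + (B - A + (E - C)) / 2 ≤ max B E - min A C := by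
  have h1 := le_max_left B E
  have h2 := le_max_right B E
  have h3 := min_le_left A C
  have h4 := min_le_right A C
  rcases abs_cases ((A + B) / 2 - (C + E) / 2) with ⟨h, _⟩ | ⟨h, _⟩ <;> rw [h] <;> linarith

/-- The bound for the length of the new interval, for a line `P` through `i`. -/
noncomputable def Fw {κ : Type} (h : κ → ℝ) (P : Finset κ) (i : κ) : ℝ :=
  if 3 ≤ #P then (∑ k ∈ P, h k) / 2 else (∑ k ∈ P, h k) - h i

theorem lineStep {ι κ : Type} [Fintype κ] [DecidableEq κ] {r : ℕ} {b : ι → Fin (r + 2) → ℝ}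
    {u : ι → ℝ} {D : ℝ} (hG : Good b u D) (lo hi : κ → ι) (hb : ∀ k, b (lo k) = b (hi k))
    (hle : ∀ k, u (lo k) ≤ u (hi k))
    (hp : ∀ i j, i ≠ j → LinearIndependent ℝ ![b (lo i), b (lo j)]) (i : κ)
    (T : (Fin (r + 2) → ℝ) →ₗ[ℝ] (Fin (r + 1) → ℝ)) (ψ : (Fin (r + 2) → ℝ) →ₗ[ℝ] ℝ)
    (hTk : LinearMap.ker T = Submodule.span ℝ {b (lo i)}) (hψ : ψ (b (lo i)) = 1)
    (hgood : ∀ i1, b i1 = b (lo i) → Good (fun j => T (b j)) (fun j => u j - u i1 * ψ (b j)) D)
    (P : Finset κ) (hP : P ∈ lines (fun k => b (lo k))) (hiP : i ∈ P) :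
    ∃ j ∈ P, j ≠ i ∧ ∃ x y z w : ι, T (b x) = T (b (lo j)) ∧ T (b y) = T (b (lo j)) ∧
      T (b z) = T (b (lo j)) ∧ T (b w) = T (b (lo j)) ∧
      u x - u (lo i) * ψ (b x) ≤ u y - u (lo i) * ψ (b y) ∧
      u z - u (hi i) * ψ (b z) ≤ u w - u (hi i) * ψ (b w) ∧
      2 * Fw (fun k => u (hi k) - u (lo k)) P i
        ≤ (u y - u (lo i) * ψ (b y)) - (u x - u (lo i) * ψ (b x))
          + ((u w - u (hi i) * ψ (b w)) - (u z - u (hi i) * ψ (b z))) := by
  classical
  have hker : ∀ x, T x = 0 → ∃ a : ℝ, x = a • b (lo i) := by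
    intro x hx
    have h3 : x ∈ LinearMap.ker T := hx
    rw [hTk, Submodule.mem_span_singleton] at h3
    obtain ⟨a, ha⟩ := h3
    exact ⟨a, ha.symm⟩
  have hTi : T (b (lo i)) = 0 := by
    have : b (lo i) ∈ LinearMap.ker T := by
      rw [hTk]
      exact Submodule.mem_span_singleton_self _
    exact this
  have hTne : ∀ j, j ≠ i → T (b (lo j)) ≠ 0 := by
    intro j hj h0
    obtain ⟨a, ha⟩ := hker _ h0
    exact not_mem_of_indep (hp i j hj.symm) a ha.symm
  -- an element different from i
  have hP' := hP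
  simp only [lines, mem_image, mem_filter, mem_univ, true_and] at hP'
  obtain ⟨⟨a1, a2⟩, ha12, hPeq⟩ := hP'
  simp only at ha12 hPeq
  have ha1 : a1 ∈ P := by
    rw [← hPeq]
    simp only [line, mem_filter, mem_univ, true_and]
    exact Submodule.subset_span (by simp)
  have ha2 : a2 ∈ P := by
    rw [← hPeq]
    simp only [line, mem_filter, mem_univ, true_and]
    exact Submodule.subset_span (by simp)
  obtain ⟨j, hjP, hji⟩ : ∃ j ∈ P, j ≠ i := by
    by_cases h : a1 = i
    · exact ⟨a2, ha2, fun h' => ha12 (h.trans h'.symm)⟩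
    · exact ⟨a1, ha1, h⟩
  refine ⟨j, hjP, hji, ?_⟩
  by_cases hcard : 3 ≤ #P
  swap
  · -- two elements
    have h2 : P = {i, j} := by
      symm
      apply Finset.eq_of_subset_of_card_le
      · intro x hx
        rw [mem_insert, mem_singleton] at hx
        rcases hx with rfl | rfl
        · exact hiP
        · exact hjP
      · rw [Finset.card_pair hji.symm]
        omega
    refine ⟨lo j, hi j, lo j, hi j, rfl, by rw [hb j], rfl, by rw [hb j], ?_, ?_, ?_⟩
    · rw [← hb j]
      have := hle j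
      linarith
    · rw [← hb j]
      have := hle j
      linarith
    · rw [← hb j]
      unfold Fw
      rw [if_neg hcard, h2, Finset.sum_pair hji.symm]
      linarith
  · -- every further element is parallel to j modulo i, up to sign
    have hpar : ∀ k ∈ P, k ≠ i → ∃ p q : ι, b p = b q ∧ T (b p) = T (b (lo j)) ∧
        (b p = b (lo k) ∨ b p = -b (lo k)) ∧
        u q - u p = u (hi k) - u (lo k) := by
      intro k hkP hki
      -- b (lo k) in the span of b (lo i), b (lo j)
      have hL := linear_lines _ hp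
      have hline : P = line (fun k => b (lo k)) i j := by
        refine (hL i j hji.symm).unique ⟨hP, hiP, hjP⟩ ⟨?_, ?_, ?_⟩
        · simp only [lines, mem_image, mem_filter, mem_univ, true_and]
          exact ⟨(i, j), hji.symm, rfl⟩
        · simp only [line, mem_filter, mem_univ, true_and]
          exact Submodule.subset_span (by simp)
        · simp only [line, mem_filter, mem_univ, true_and]
          exact Submodule.subset_span (by simp)
      have hk : k ∈ line (fun k => b (lo k)) i j := by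
        rw [← hline]
        exact hkP
      simp only [line, mem_filter, mem_univ, true_and] at hk
      rw [Submodule.mem_span_pair] at hk
      obtain ⟨a, c, hac⟩ := hk
      have hTkj : T (b (lo k)) = c • T (b (lo j)) := by
        rw [← hac, map_add, map_smul, map_smul, hTi, smul_zero, zero_add]
      have hc : c ≠ 0 := by
        rintro rfl
        rw [zero_smul] at hTkj
        exact hTne k hki hTkj
      have hc1 := par (hgood (lo i) rfl) (lo j) (lo k) c (hTne j hji) hTkj hc
      rcases (abs_eq zero_le_one).1 hc1 with h | h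
      · refine ⟨lo k, hi k, hb k, ?_, Or.inl rfl, rfl⟩
        rw [hTkj, h, one_smul]
      · obtain ⟨p, hp1, hp2⟩ := hG.ng (hi k)
        obtain ⟨q, hq1, hq2⟩ := hG.ng (lo k)
        refine ⟨p, q, ?_, ?_, Or.inr ?_, ?_⟩
        · rw [hp1, hq1, hb k]
        · rw [hp1, ← hb k, map_neg, hTkj, h, neg_smul, one_smul, neg_neg]
        · rw [hp1, ← hb k]
        · rw [hp2, hq2]
          ring
    -- difference of two elements over the same vector
    have hdiff : ∀ k ∈ P, ∀ l ∈ P, k ≠ i → l ≠ i → k ≠ l → ∀ p q : ι,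
        T (b p) = T (b (lo j)) → T (b q) = T (b (lo j)) →
        (b p = b (lo k) ∨ b p = -b (lo k)) → (b q = b (lo l) ∨ b q = -b (lo l)) →
        |ψ (b p) - ψ (b q)| = 1 := by
      intro k _ l _ hki hli hkl p q hp1 hq1 hp2 hq2
      have h0 : T (b p - b q) = 0 := by rw [map_sub, hp1, hq1, sub_self]
      obtain ⟨c, hc⟩ := hker _ h0
      have hcv : ψ (b p) - ψ (b q) = c := by
        rw [← map_sub, hc, map_smul, hψ, smul_eq_mul, mul_one]
      rw [hcv]
      have hneg : ∀ {x y : Fin (r + 2) → ℝ}, LinearIndependent ℝ ![x, y] →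
          LinearIndependent ℝ ![x, -y] := by
        intro x y hxy
        rw [LinearIndependent.pair_iff] at hxy ⊢
        intro s t hst
        have := hxy s (-t) (by rw [neg_smul, ← smul_neg]; exact hst)
        exact ⟨this.1, neg_eq_zero.1 this.2⟩
      have hi1 : LinearIndependent ℝ ![b (lo i), b q] := by
        rcases hq2 with h | h
        · rw [h]
          exact hp i l hli.symm
        · rw [h]
          exact hneg (hp i l hli.symm)
      have hi2 : LinearIndependent ℝ ![b p, b q] := by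
        have h3 : LinearIndependent ℝ ![b p, b (lo l)] := by
          rcases hp2 with h | h
          · rw [h]
            exact hp k l hkl
          · rw [h, LinearIndependent.pair_symm_iff]
            exact hneg (hp l k hkl.symm)
        rcases hq2 with h | h
        · rw [h]
          exact h3
        · rw [h]
          exact hneg h3
      exact tri hG (lo i) p q hi1 hi2 c hc
    -- a second element k
    obtain ⟨k, hkP, hkij⟩ : ∃ k ∈ P, k ∉ ({i, j} : Finset κ) := by
      by_contra hcon
      push Not at hcon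
      have : #P ≤ #({i, j} : Finset κ) := Finset.card_le_card hcon
      have h2 : #({i, j} : Finset κ) ≤ 2 := Finset.card_le_two
      omega
    have hki : k ≠ i := fun h => hkij (by simp [h])
    have hkj : k ≠ j := fun h => hkij (by simp [h])
    obtain ⟨p, q, hpq, hTp, hpk, hlen⟩ := hpar k hkP hki
    have hPset : P = {i, j, k} := by
      apply Finset.Subset.antisymm
      · intro l hl
        by_contra hcon
        rw [mem_insert, mem_insert, mem_singleton, not_or, not_or] at hcon
        obtain ⟨hl1, hl2, hl3⟩ := hcon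
        obtain ⟨p', q', hpq', hTp', hpl, _⟩ := hpar l hl hl1
        have d1 := hdiff j hjP k hkP hji hki hkj.symm (lo j) p rfl hTp (Or.inl rfl) hpk
        have d2 := hdiff j hjP l hl hji hl1 (Ne.symm hl2) (lo j) p' rfl hTp' (Or.inl rfl) hpl
        have d3 := hdiff k hkP l hl hki hl1 (Ne.symm hl3) p p' hTp hTp' hpk hpl
        rcases (abs_eq zero_le_one).1 d1 with e1 | e1 <;>
        rcases (abs_eq zero_le_one).1 d2 with e2 | e2 <;>
        rcases (abs_eq zero_le_one).1 d3 with e3 | e3 <;> linarith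
      · intro x hx
        rw [mem_insert, mem_insert, mem_singleton] at hx
        rcases hx with rfl | rfl | rfl
        · exact hiP
        · exact hjP
        · exact hkP
    have hδ := hdiff j hjP k hkP hji hki hkj.symm (lo j) p rfl hTp (Or.inl rfl) hpk
    -- the hull for a height s of i
    have hull : ∀ s : ℝ, ∃ x y : ι, T (b x) = T (b (lo j)) ∧ T (b y) = T (b (lo j)) ∧
        |((u (lo j) + u (hi j)) / 2 - (u p + u q) / 2) - s * (ψ (b (lo j)) - ψ (b p))|
          + ((u (hi j) - u (lo j)) + (u (hi k) - u (lo k))) / 2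
          ≤ (u y - s * ψ (b y)) - (u x - s * ψ (b x)) := by
      intro s
      have hx : ∃ x : ι, T (b x) = T (b (lo j)) ∧
          u x - s * ψ (b x) = min (u (lo j) - s * ψ (b (lo j))) (u p - s * ψ (b p)) := by
        rcases min_choice (u (lo j) - s * ψ (b (lo j))) (u p - s * ψ (b p)) with h | h
        · exact ⟨lo j, rfl, h.symm⟩
        · exact ⟨p, hTp, h.symm⟩
      have hy : ∃ y : ι, T (b y) = T (b (lo j)) ∧
          u y - s * ψ (b y) = max (u (hi j) - s * ψ (b (lo j))) (u q - s * ψ (b p)) := by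
        rcases max_choice (u (hi j) - s * ψ (b (lo j))) (u q - s * ψ (b p)) with h | h
        · exact ⟨hi j, by rw [hb j], by rw [h, hb j]⟩
        · exact ⟨q, by rw [← hpq, hTp], by rw [h, hpq]⟩
      obtain ⟨x, hx1, hx2⟩ := hx
      obtain ⟨y, hy1, hy2⟩ := hy
      refine ⟨x, y, hx1, hy1, ?_⟩
      rw [hx2, hy2]
      have h1 := hull_h5 (u (lo j) - s * ψ (b (lo j))) (u (hi j) - s * ψ (b (lo j)))
        (u p - s * ψ (b p)) (u q - s * ψ (b p))
      have h2 : ((u (lo j) - s * ψ (b (lo j))) + (u (hi j) - s * ψ (b (lo j)))) / 2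
          - ((u p - s * ψ (b p)) + (u q - s * ψ (b p))) / 2
          = ((u (lo j) + u (hi j)) / 2 - (u p + u q) / 2) - s * (ψ (b (lo j)) - ψ (b p)) := by
        ring
      rw [h2] at h1
      have h3 : (u (hi j) - s * ψ (b (lo j))) - (u (lo j) - s * ψ (b (lo j)))
          + ((u q - s * ψ (b p)) - (u p - s * ψ (b p)))
          = (u (hi j) - u (lo j)) + (u (hi k) - u (lo k)) := by
        rw [← hlen]
        ring
      rw [h3] at h1
      exact h1
    obtain ⟨x, y, hx1, hy1, hxy⟩ := hull (u (lo i))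
    obtain ⟨z, w, hz1, hw1, hzw⟩ := hull (u (hi i))
    have hj0 := hle j
    have hk0 := hle k
    have ha1 := abs_nonneg (((u (lo j) + u (hi j)) / 2 - (u p + u q) / 2)
      - u (lo i) * (ψ (b (lo j)) - ψ (b p)))
    have ha2 := abs_nonneg (((u (lo j) + u (hi j)) / 2 - (u p + u q) / 2)
      - u (hi i) * (ψ (b (lo j)) - ψ (b p)))
    refine ⟨x, y, z, w, hx1, hy1, hz1, hw1, by linarith, by linarith, ?_⟩
    have hsum : u (hi i) - u (lo i) ≤
        |((u (lo j) + u (hi j)) / 2 - (u p + u q) / 2) - u (lo i) * (ψ (b (lo j)) - ψ (b p))|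
        + |((u (lo j) + u (hi j)) / 2 - (u p + u q) / 2) - u (hi i) * (ψ (b (lo j)) - ψ (b p))| := by
      have h1 := abs_sub (((u (lo j) + u (hi j)) / 2 - (u p + u q) / 2)
        - u (lo i) * (ψ (b (lo j)) - ψ (b p))) (((u (lo j) + u (hi j)) / 2 - (u p + u q) / 2)
        - u (hi i) * (ψ (b (lo j)) - ψ (b p)))
      have h2 : (((u (lo j) + u (hi j)) / 2 - (u p + u q) / 2)
        - u (lo i) * (ψ (b (lo j)) - ψ (b p))) - (((u (lo j) + u (hi j)) / 2 - (u p + u q) / 2)
        - u (hi i) * (ψ (b (lo j)) - ψ (b p)))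
          = (u (hi i) - u (lo i)) * (ψ (b (lo j)) - ψ (b p)) := by ring
      rw [h2, abs_mul, hδ, mul_one] at h1
      exact (le_abs_self _).trans h1
    have hPsum : ∑ l ∈ P, (u (hi l) - u (lo l))
        = (u (hi i) - u (lo i)) + ((u (hi j) - u (lo j)) + (u (hi k) - u (lo k))) := by
      rw [hPset, Finset.sum_insert (by simp [hji.symm, hki.symm]), Finset.sum_pair hkj.symm]
    unfold Fw
    rw [if_pos hcard, hPsum]
    linarith

end Pool.Agent.Helper5.FB
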