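import Pool.Agent.Helper80.VR.Main

/-!
# FB: weighted radial isotropic position and the weighted projection inequality

The weighted version of the blocks `VR.layer`, `VR.exists_basis_ge`, `VR.near_critical`,
`VR.frame_ineq`, `VR.limit_ineq` of project VR (helper80).
-/

namespace Pool.Agent.Helper5.FB

open Finset Pool.Agent.Helper80.VR

private lemma anti_h5 (t : ℝ) : Antitone (fun c : ℝ => if c ≤ t then (1:ℝ) else 0) := by
  intro x y hxy
  by_cases hy : y ≤ t
  · have hx : x ≤ t := hxy.trans hy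
    simp [hx, hy]
  · simp only [hy, if_false]
    split_ifs <;> norm_num

private lemma int_step_h5 (m M t : ℝ) (h1 : m ≤ t) (h2 : t ≤ M) :
    ∫ c in m..M, (if c ≤ t then (1:ℝ) else 0) = t - m := by
  have h3 : ∫ c in t..M, (if c ≤ t then (1:ℝ) else 0) = 0 := by
    apply intervalIntegral.integral_zero_ae
    refine Filter.Eventually.of_forall ?_
    intro c hc
    rw [Set.uIoc_of_le h2] at hc
    simp [not_le.mpr hc.1]
  rw [← intervalIntegral.integral_add_adjacent_intervals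
    ((anti_h5 t).intervalIntegrable (a := m) (b := t))
    ((anti_h5 t).intervalIntegrable (a := t) (b := M)), h3, add_zero]
  have e1 : ∫ c in m..t, (if c ≤ t then (1:ℝ) else 0) = ∫ _c in m..t, (1:ℝ) := by
    apply intervalIntegral.integral_congr
    intro c hc
    rw [Set.uIcc_of_le h1] at hc
    simp [hc.2]
  rw [e1]
  simp

private lemma sum_h5 {α : Type} [Fintype α] (a s : α → ℝ) (m M : ℝ)
    (h1 : ∀ i, m ≤ s i) (h2 : ∀ i, s i ≤ M) :
    ∑ i, a i * s i - m * ∑ i, a i = ∫ c in m..M, ∑ i, a i * (if c ≤ s i then (1:ℝ) else 0) := by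
  rw [intervalIntegral.integral_finsetSum]
  · have : ∀ i ∈ (univ : Finset α), ∫ c in m..M, a i * (if c ≤ s i then (1:ℝ) else 0)
        = a i * s i - m * a i := by
      intro i _
      rw [intervalIntegral.integral_const_mul, int_step_h5 m M (s i) (h1 i) (h2 i)]
      ring
    rw [Finset.sum_congr rfl this, Finset.sum_sub_distrib, Finset.mul_sum]
  · intro i _
    exact ((anti_h5 (s i)).intervalIntegrable).const_mul _

private lemma integ_h5 {α : Type} [Fintype α] (a s : α → ℝ) (m M : ℝ) :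
    IntervalIntegrable (fun c : ℝ => ∑ i, a i * (if c ≤ s i then (1:ℝ) else 0))
      MeasureTheory.volume m M := by
  have h := IntervalIntegrable.sum (μ := MeasureTheory.volume) (a := m) (b := M)
    (univ : Finset α) (f := fun i c => a i * (if c ≤ s i then (1:ℝ) else 0))
    (fun i _ => ((anti_h5 (s i)).intervalIntegrable).const_mul _)
  refine h.congr ?_
  intro c _
  simp

theorem layerW {ι κ : Type} [Fintype ι] [Fintype κ] (t : ι → ℝ) (f : κ → ι) (a : ι → ℝ)
    (h : ∀ c : ℝ, ∑ i, a i * (if c ≤ t i then (1:ℝ) else 0)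
      ≤ ∑ k, (if c ≤ t (f k) then (1:ℝ) else 0))
    (heq : ∑ i, a i = Fintype.card κ) :
    ∑ i, a i * t i ≤ ∑ k, t (f k) := by
  rcases isEmpty_or_nonempty ι with hι | hι
  · have : IsEmpty κ := ⟨fun k => hι.elim (f k)⟩
    simp
  obtain ⟨m, hm⟩ := (Set.finite_range t).bddBelow
  obtain ⟨M, hM⟩ := (Set.finite_range t).bddAbove
  have h1 : ∀ i, m ≤ t i := fun i => hm ⟨i, rfl⟩
  have h2 : ∀ i, t i ≤ M := fun i => hM ⟨i, rfl⟩
  have hmM : m ≤ M := (h1 (Classical.arbitrary ι)).trans (h2 _)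
  have e1 := sum_h5 a t m M h1 h2
  have e2 := sum_h5 (fun _ : κ => (1:ℝ)) (fun k => t (f k)) m M (fun k => h1 _) (fun k => h2 _)
  have key : ∫ c in m..M, ∑ i, a i * (if c ≤ t i then (1:ℝ) else 0) ≤
      ∫ c in m..M, ∑ k : κ, (1:ℝ) * (if c ≤ t (f k) then (1:ℝ) else 0) := by
    apply intervalIntegral.integral_mono_on hmM (integ_h5 a t m M)
      (integ_h5 (fun _ : κ => (1:ℝ)) (fun k => t (f k)) m M)
    intro c _
    simp only [one_mul]
    exact h c
  rw [← e1, ← e2, heq] at key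
  simp only [one_mul, Finset.sum_const, Finset.card_univ, nsmul_eq_mul, mul_one] at key
  linarith

/-- the condition on the weights: no flat is overweight -/
def Bal {ι : Type} {r : ℕ} (v : ι → Fin r → ℝ) (a : ι → ℝ) : Prop :=
  ∀ U : Submodule ℝ (Fin r → ℝ), ∀ J : Finset ι, (∀ i ∈ J, v i ∈ U) →
      ∑ i ∈ J, a i ≤ Module.finrank ℝ U

theorem basisW {ι : Type} [Fintype ι] {r : ℕ} (v : ι → Fin r → ℝ)
    (hs : Submodule.span ℝ (Set.range v) = ⊤) (a : ι → ℝ) (hU : Bal v a)
    (heq : ∑ i, a i = r) (t : ι → ℝ) :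
    ∃ f : Fin r → ι, G v f ≠ 0 ∧ ∑ i, a i * t i ≤ ∑ k, t (f k) := by
  classical
  obtain ⟨f0, hf0⟩ := exists_G_ne v hs
  obtain ⟨f, hf, hmax⟩ := Finset.exists_max_image
    ((Finset.univ : Finset (Fin r → ι)).filter fun f => G v f ≠ 0) (fun f => ∑ k, t (f k))
    ⟨f0, by rw [Finset.mem_filter]; exact ⟨Finset.mem_univ _, hf0⟩⟩
  rw [Finset.mem_filter] at hf
  have hG := hf.2
  refine ⟨f, hG, ?_⟩
  have hunit : IsUnit (Matrix.of fun k : Fin r => v (f k)) :=
    (Matrix.isUnit_iff_isUnit_det _).2 (isUnit_iff_ne_zero.2 hG)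
  have hli : LinearIndependent ℝ (fun k : Fin r => v (f k)) :=
    Matrix.linearIndependent_rows_iff_isUnit.2 hunit
  have hcard : Fintype.card (Fin r) = Module.finrank ℝ (Fin r → ℝ) := by
    rw [Module.finrank_fin_fun, Fintype.card_fin]
  have hspan : Submodule.span ℝ (Set.range fun k : Fin r => v (f k)) = ⊤ :=
    hli.span_eq_top_of_card_eq_finrank' hcard
  have claim : ∀ c : ℝ, ∀ j : ι, c ≤ t j → v j ∈ Submodule.span ℝ
      (((Finset.univ.filter fun k : Fin r => c ≤ t (f k)).image fun k => v (f k) : Finset (Fin r → ℝ)) :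
        Set (Fin r → ℝ)) := by
    intro c j hj
    have h1 : v j ∈ Submodule.span ℝ (Set.range fun k : Fin r => v (f k)) := by
      rw [hspan]
      exact Submodule.mem_top
    obtain ⟨b, ha⟩ := (Submodule.mem_span_range_iff_exists_fun ℝ).1 h1
    have h2 : ∀ k, t (f k) < c → b k = 0 := by
      intro k hk
      by_contra hak
      have h3 : G v (Function.update f k j) = b k • G v f := by
        unfold G
        rw [← Matrix.det_updateRow_sum]
        congr 1
        ext i l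
        rw [Matrix.updateRow_apply]
        by_cases hik : i = k
        · rw [if_pos hik, hik]
          show v (Function.update f k j k) l = _
          rw [Function.update_self, ← ha]
          rfl
        · rw [if_neg hik]
          show v (Function.update f k j i) l = v (f i) l
          rw [Function.update_of_ne hik]
      have h4 := hmax (Function.update f k j) (by
        rw [Finset.mem_filter]
        refine ⟨Finset.mem_univ _, ?_⟩
        rw [h3, smul_eq_mul]
        exact mul_ne_zero hak hG)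
      have h5 : ∑ i, t (Function.update f k j i) = ∑ i, t (f i) + (t j - t (f k)) := by
        rw [← Finset.add_sum_erase _ _ (Finset.mem_univ k), ← Finset.add_sum_erase Finset.univ _ (Finset.mem_univ k),
          Function.update_self]
        have h6 : ∑ i ∈ Finset.univ.erase k, t (Function.update f k j i) = ∑ i ∈ Finset.univ.erase k, t (f i) :=
          Finset.sum_congr rfl fun i hi => by rw [Function.update_of_ne (Finset.ne_of_mem_erase hi)]
        rw [h6]
        ring
      rw [h5] at h4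
      linarith
    rw [← ha]
    refine Submodule.sum_mem _ fun k _ => ?_
    by_cases hk : c ≤ t (f k)
    · refine Submodule.smul_mem _ _ (Submodule.subset_span ?_)
      rw [Finset.mem_coe, Finset.mem_image]
      exact ⟨k, by rw [Finset.mem_filter]; exact ⟨Finset.mem_univ _, hk⟩, rfl⟩
    · rw [h2 k (not_le.1 hk), zero_smul]
      exact Submodule.zero_mem _
  refine layerW t f a (fun c => ?_) (by rw [Fintype.card_fin, heq])
  have h1 := hU _ (Finset.univ.filter fun i => c ≤ t i) (fun i hi => by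
    rw [Finset.mem_filter] at hi
    exact claim c i hi.2)
  have h2 := finrank_span_finset_le_card (R := ℝ)
    ((Finset.univ.filter fun k : Fin r => c ≤ t (f k)).image fun k => v (f k))
  have h3 : (((Finset.univ.filter fun k : Fin r => c ≤ t (f k)).image fun k => v (f k)).card : ℝ) ≤
      ((Finset.univ.filter fun k : Fin r => c ≤ t (f k)).card : ℝ) := by exact_mod_cast Finset.card_image_le
  have h4 : (Module.finrank ℝ (Submodule.span ℝ
      (((Finset.univ.filter fun k : Fin r => c ≤ t (f k)).image fun k => v (f k) : Finset (Fin r → ℝ)) :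
        Set (Fin r → ℝ))) : ℝ) ≤ ((Finset.univ.filter fun k : Fin r => c ≤ t (f k)).card : ℝ) := by
    refine le_trans ?_ h3
    exact_mod_cast h2
  have h5 := h1.trans h4
  have h6 : ∑ i, a i * (if c ≤ t i then (1:ℝ) else 0) = ∑ i ∈ Finset.univ.filter (fun i => c ≤ t i), a i := by
    rw [Finset.sum_filter]
    refine Finset.sum_congr rfl fun i _ => ?_
    split_ifs <;> simp
  rw [h6, Finset.sum_boole]
  exact h5

private theorem cont_det_h5 {ι : Type} [Fintype ι] {r : ℕ} (v : ι → Fin r → ℝ) :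
    Continuous fun t : ι → ℝ => (M v t).det := by
  apply Continuous.matrix_det
  unfold M
  refine continuous_finsetSum _ fun i _ => ?_
  exact (Real.continuous_exp.comp (continuous_apply i)).smul continuous_const

private theorem M_update_h5 {ι : Type} [Fintype ι] [DecidableEq ι] {r : ℕ} (v : ι → Fin r → ℝ)
    (t : ι → ℝ) (i : ι) (x : ℝ) :
    M v (Function.update t i (t i + x))
      = M v t + (Real.exp (t i) * (Real.exp x - 1)) • Matrix.vecMulVec (v i) (v i) := by
  unfold M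
  rw [← Finset.add_sum_erase Finset.univ _ (Finset.mem_univ i),
    ← Finset.add_sum_erase Finset.univ (fun j => Real.exp (t j) • Matrix.vecMulVec (v j) (v j))
      (Finset.mem_univ i)]
  have h : ∑ j ∈ Finset.univ.erase i,
      Real.exp (Function.update t i (t i + x) j) • Matrix.vecMulVec (v j) (v j)
      = ∑ j ∈ Finset.univ.erase i, Real.exp (t j) • Matrix.vecMulVec (v j) (v j) := by
    refine Finset.sum_congr rfl fun j hj => ?_
    rw [Function.update_of_ne (Finset.ne_of_mem_erase hj)]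
  rw [h, Function.update_self, Real.exp_add, add_right_comm, ← add_smul]
  congr 2
  ring

theorem nearW {ι : Type} [Fintype ι] {r : ℕ} (v : ι → Fin r → ℝ)
    (hs : Submodule.span ℝ (Set.range v) = ⊤) (a : ι → ℝ) (hU : Bal v a)
    (heq : ∑ i, a i = r) (ε : ℝ) (hε : 0 < ε) :
    ∃ t : ι → ℝ, (M v t).PosDef ∧
      ∀ i, |Real.exp (t i) * (v i ⬝ᵥ (M v t)⁻¹.mulVec (v i)) - a i| ≤ ε := by
  classical
  obtain ⟨f0, hf0, _⟩ := basisW v hs a hU heq 0
  have hpos : ∀ t, (M v t).PosDef := fun t => M_posDef v t f0 hf0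
  have hdet : ∀ t, 0 < (M v t).det := fun t => (hpos t).det_pos
  set Ψ : (ι → ℝ) → ℝ := fun t => Real.log (M v t).det - ∑ i, a i * t i with hΨ
  have hcont : Continuous Ψ := by
    apply Continuous.sub
    · exact (cont_det_h5 v).log fun t => (hdet t).ne'
    · exact continuous_finsetSum _ fun i _ => continuous_const.mul (continuous_apply i)
  set F : Finset (Fin r → ι) := Finset.univ.filter fun f => G v f ≠ 0 with hF
  have hFne : F.Nonempty := ⟨f0, by rw [hF, Finset.mem_filter]; exact ⟨Finset.mem_univ _, hf0⟩⟩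
  obtain ⟨f1, hf1, hmin⟩ := Finset.exists_min_image F (fun f => (G v f) ^ 2) hFne
  have hf1' : G v f1 ≠ 0 := (Finset.mem_filter.1 hf1).2
  have hg : 0 < (G v f1) ^ 2 := by positivity
  set c0 : ℝ := Real.log ((G v f1) ^ 2) with hc0
  have hlow : ∀ t, c0 ≤ Ψ t := by
    intro t
    obtain ⟨f, hf, hle⟩ := basisW v hs a hU heq t
    have h1 : (G v f1) ^ 2 ≤ (G v f) ^ 2 := hmin f (by
      rw [hF, Finset.mem_filter]; exact ⟨Finset.mem_univ _, hf⟩)
    have h2 := det_ge v t f hf
    have h3 : Real.exp (∑ i, a i * t i) * (G v f1) ^ 2 ≤ (M v t).det := by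
      refine le_trans ?_ h2
      have h4 : Real.exp (∑ i, a i * t i) ≤ Real.exp (∑ k, t (f k)) := Real.exp_le_exp.2 hle
      have h5 : 0 < Real.exp (∑ i, a i * t i) := Real.exp_pos _
      have h6 : 0 < Real.exp (∑ k, t (f k)) := Real.exp_pos _
      nlinarith
    have h7 := Real.log_le_log (by positivity) h3
    rw [Real.log_mul (Real.exp_pos _).ne' hg.ne', Real.log_exp] at h7
    simp only [hΨ]
    linarith
  set C : ℝ := Ψ 0 - c0 with hC
  have hC0 : 0 ≤ C := by
    have := hlow 0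
    linarith
  set δ : ℝ := ε ^ 2 / (2 * (C + 1)) with hδ
  have hδ0 : 0 < δ := by positivity
  obtain ⟨t, ht1, ht2⟩ := exists_min Ψ hcont c0 hlow δ hδ0
  refine ⟨t, hpos t, fun i => ?_⟩
  set κ : ℝ := Real.exp (t i) * (v i ⬝ᵥ (M v t)⁻¹.mulVec (v i)) with hκ
  have hkey : κ - a i + δ * t i = 0 := by
    apply one_var κ (a i) δ (t i)
    intro x
    have h1 := ht1 (Function.update t i (t i + x))
    have h2 : (M v (Function.update t i (t i + x))).det
        = (M v t).det * (1 + (Real.exp x - 1) * κ) := by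
      rw [M_update_h5, det_rank_one _ (isUnit_iff_ne_zero.2 (hdet t).ne')]
      congr 2
      rw [hκ]
      ring
    have h3 : 0 < 1 + (Real.exp x - 1) * κ := by
      have h4 := hdet (Function.update t i (t i + x))
      rw [h2] at h4
      exact (mul_pos_iff_of_pos_left (hdet t)).1 h4
    have h5 : ∑ j, a j * Function.update t i (t i + x) j = ∑ j, a j * t j + a i * x := by
      rw [← Finset.add_sum_erase Finset.univ _ (Finset.mem_univ i),
        ← Finset.add_sum_erase Finset.univ (fun j => a j * t j) (Finset.mem_univ i),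
        Function.update_self]
      have : ∑ j ∈ Finset.univ.erase i, a j * Function.update t i (t i + x) j
          = ∑ j ∈ Finset.univ.erase i, a j * t j :=
        Finset.sum_congr rfl fun j hj => by
          rw [Function.update_of_ne (Finset.ne_of_mem_erase hj)]
      rw [this]
      ring
    have h6 : ∑ j, Function.update t i (t i + x) j ^ 2
        = ∑ j, t j ^ 2 + ((t i + x) ^ 2 - t i ^ 2) := by
      rw [← Finset.add_sum_erase Finset.univ _ (Finset.mem_univ i),
        ← Finset.add_sum_erase Finset.univ (fun j => t j ^ 2) (Finset.mem_univ i),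
        Function.update_self]
      have : ∑ j ∈ Finset.univ.erase i, Function.update t i (t i + x) j ^ 2
          = ∑ j ∈ Finset.univ.erase i, t j ^ 2 :=
        Finset.sum_congr rfl fun j hj => by
          rw [Function.update_of_ne (Finset.ne_of_mem_erase hj)]
      rw [this]
      ring
    simp only [hΨ] at h1
    rw [h2, h5, h6, Real.log_mul (hdet t).ne' h3.ne'] at h1
    nlinarith
  have h7 : κ - a i = -(δ * t i) := by linarith
  rw [h7, abs_neg]
  have h8 := ht2 i
  have h9 : (δ * t i) ^ 2 ≤ ε ^ 2 := by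
    refine h8.trans ?_
    rw [hδ]
    have : 2 * (ε ^ 2 / (2 * (C + 1))) * C = ε ^ 2 * (C / (C + 1)) := by
      field_simp
    rw [this]
    have h10 : C / (C + 1) ≤ 1 := by
      rw [div_le_one (by linarith)]
      linarith
    have h11 : 0 ≤ ε ^ 2 := by positivity
    nlinarith
  exact abs_le_of_sq_le_sq h9 hε.le

/-- the inequality for a tight frame, for a subfamily `L'` of the lines -/
theorem frameW {ι : Type} [Fintype ι] [DecidableEq ι] {r : ℕ} (u : ι → Fin r → ℝ)
    (hP : ∀ x : Fin r → ℝ, ∑ i, (u i ⬝ᵥ x) ^ 2 = x ⬝ᵥ x) (L L' : Finset (Finset ι))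
    (hL : Linear L) (hL' : L' ⊆ L)
    (h2 : ∀ P ∈ L, Module.finrank ℝ (Submodule.span ℝ (u '' (P : Set ι))) ≤ 2) :
    ∑ i, (u i ⬝ᵥ u i) ^ 2
      + ∑ P ∈ L', ((∑ i ∈ P, u i ⬝ᵥ u i) ^ 2 / 2 - ∑ i ∈ P, (u i ⬝ᵥ u i) ^ 2) ≤ r := by
  have e1 : ∀ k : Fin r, ∑ i, u i k ^ 2 = 1 := by
    intro k
    have h := hP (Pi.single k 1)
    simpa [dotProduct_single, single_dotProduct] using h
  have e2 : ∑ i, u i ⬝ᵥ u i = r := by
    have h : ∀ i, u i ⬝ᵥ u i = ∑ k, u i k ^ 2 := fun i => by
      unfold dotProduct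
      exact Finset.sum_congr rfl fun k _ => (sq (u i k)).symm
    rw [Finset.sum_congr rfl fun i _ => h i, Finset.sum_comm, Finset.sum_congr rfl fun k _ => e1 k]
    simp
  have e3 : ∑ i, ∑ j, (u i ⬝ᵥ u j) ^ 2 = r := by
    rw [Finset.sum_comm, Finset.sum_congr rfl fun j _ => hP (u j), e2]
  have e4 := decomp L hL (fun i j => (u i ⬝ᵥ u j) ^ 2)
  rw [e3] at e4
  have e5 : ∑ P ∈ L', ((∑ i ∈ P, u i ⬝ᵥ u i) ^ 2 / 2 - ∑ i ∈ P, (u i ⬝ᵥ u i) ^ 2) ≤
      ∑ P ∈ L', (∑ i ∈ P, ∑ j ∈ P, (u i ⬝ᵥ u j) ^ 2 - ∑ i ∈ P, (u i ⬝ᵥ u i) ^ 2) :=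
    Finset.sum_le_sum fun P hP' => sub_le_sub_right (planar u P (h2 P (hL' hP'))) _
  have e6 : ∑ P ∈ L', (∑ i ∈ P, ∑ j ∈ P, (u i ⬝ᵥ u j) ^ 2 - ∑ i ∈ P, (u i ⬝ᵥ u i) ^ 2) ≤
      ∑ P ∈ L, (∑ i ∈ P, ∑ j ∈ P, (u i ⬝ᵥ u j) ^ 2 - ∑ i ∈ P, (u i ⬝ᵥ u i) ^ 2) := by
    refine Finset.sum_le_sum_of_subset_of_nonneg hL' fun P _ _ => ?_
    rw [sub_nonneg]
    refine Finset.sum_le_sum fun i hi => ?_
    exact Finset.single_le_sum (f := fun j => (u i ⬝ᵥ u j) ^ 2) (fun j _ => sq_nonneg _) hi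
  linarith

theorem limitW {ι : Type} [Fintype ι] (L : Finset (Finset ι)) (r : ℝ) (a : ι → ℝ)
    (h : ∀ ε : ℝ, 0 < ε → ∃ k : ι → ℝ, (∀ i, |k i - a i| ≤ ε) ∧
      ∑ i, k i ^ 2 + ∑ P ∈ L, ((∑ i ∈ P, k i) ^ 2 / 2 - ∑ i ∈ P, k i ^ 2) ≤ r) :
    ∑ i, a i ^ 2 + ∑ P ∈ L, ((∑ i ∈ P, a i) ^ 2 / 2 - ∑ i ∈ P, a i ^ 2) ≤ r := by
  classical
  have hk : ∀ m : ℕ, ∃ k : ι → ℝ, (∀ i, |k i - a i| ≤ 1 / ((m : ℝ) + 1)) ∧
      ∑ i, k i ^ 2 + ∑ P ∈ L, ((∑ i ∈ P, k i) ^ 2 / 2 - ∑ i ∈ P, k i ^ 2) ≤ r := fun m =>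
    h (1 / ((m : ℝ) + 1)) (by positivity)
  choose k hk1 hk2 using hk
  have hlim : Filter.Tendsto k Filter.atTop (nhds a) := by
    rw [tendsto_pi_nhds]
    intro i
    rw [tendsto_iff_dist_tendsto_zero]
    refine squeeze_zero (fun _ => dist_nonneg) (fun m => ?_)
      (tendsto_one_div_add_atTop_nhds_zero_nat (𝕜 := ℝ))
    rw [Real.dist_eq]
    exact hk1 m i
  have hcont : Continuous (fun k : ι → ℝ =>
      ∑ i, k i ^ 2 + ∑ P ∈ L, ((∑ i ∈ P, k i) ^ 2 / 2 - ∑ i ∈ P, k i ^ 2)) := by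
    fun_prop
  have h1 := (hcont.tendsto a).comp hlim
  exact le_of_tendsto' h1 hk2

/-- The weighted projection inequality. -/
theorem projW {ι : Type} [Fintype ι] [DecidableEq ι] {r : ℕ}
    (v : ι → Fin r → ℝ) (hs : Submodule.span ℝ (Set.range v) = ⊤)
    (hp : ∀ i j, i ≠ j → LinearIndependent ℝ ![v i, v j])
    (a : ι → ℝ) (hU : Bal v a) (heq : ∑ i, a i = r)
    (L' : Finset (Finset ι)) (hL' : L' ⊆ lines v) :
    ∑ i, a i ^ 2 + ∑ P ∈ L', ((∑ i ∈ P, a i) ^ 2 / 2 - ∑ i ∈ P, a i ^ 2) ≤ r := by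
  refine limitW L' r a ?_
  intro ε hε
  obtain ⟨t, ht, hk⟩ := nearW v hs a hU heq ε hε
  obtain ⟨A, c, hc, hfr, hnorm⟩ := exists_frame v t ht
  refine ⟨fun i => (c i • A (v i)) ⬝ᵥ (c i • A (v i)), ?_, ?_⟩
  · intro i
    show |(c i • A (v i)) ⬝ᵥ (c i • A (v i)) - a i| ≤ ε
    rw [hnorm i]
    exact hk i
  · exact frameW (fun i => c i • A (v i)) hfr (lines v) L' (linear_lines v hp) hL'
      (finrank_line v A c)

end Pool.Agent.Helper5.FB
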